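import Mathlib
import Pool.Agent.Helper31.GZ.Brouwer

/-!
# An obstruction to contractibility

If a set contains all the facets of a full-dimensional simplex but misses some interior point of
it, then the radial map from the punctured space to the set is not homotopic to a constant.
-/

set_option autoImplicit false

open Set Topology Metric

namespace Pool.Agent.V11212.Sh

/-- the punctured space -/
abbrev Pu (m : ℕ) : Type := {y : EuclideanSpace ℝ (Fin m) // y ≠ 0}

/-- the identity of the punctured space is essential -/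
lemma not_homotopic_const {m : ℕ} (f : C(Pu m, Pu m)) (w : Pu m)
    (hf : ∀ (g : Pu m) (c : ℝ), 0 ≤ c → (f g).1 ≠ -(c • g.1)) :
    ¬ ContinuousMap.Homotopic f (ContinuousMap.const (Pu m) w) := by
  classical
  rintro ⟨H⟩
  let t : ℝ → unitInterval := fun s => Set.projIcc 0 1 zero_le_one (2 - 2 * s)
  have ht : Continuous t := continuous_projIcc.comp (by fun_prop)
  have ht1 : t 1 = 0 := by
    simp only [t]
    norm_num
  have ht2 : ∀ s, s ≤ 1 / 2 → t s = 1 := by
    intro s hs
    simp only [t]
    exact Set.projIcc_of_right_le _ (by linarith)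
  let F : EuclideanSpace ℝ (Fin m) → EuclideanSpace ℝ (Fin m) := fun g =>
    if h : g ≠ 0 then (H (t ‖g‖, ⟨g, h⟩)).1 else w.1
  have hF0 : ∀ g, ‖g‖ ≤ 1 / 2 → F g = w.1 := by
    intro g hg
    simp only [F]
    split_ifs with h
    · rw [ht2 _ hg, H.apply_one]
      rfl
    · rfl
  have hF1 : ∀ g, F g ≠ 0 := by
    intro g
    simp only [F]
    split_ifs with h
    · exact (H _).2
    · exact w.2
  have hFc : Continuous F := by
    rw [continuous_iff_continuousAt]
    intro g
    by_cases hg : g = 0
    · have h1 : ∀ᶠ y in 𝓝 g, w.1 = F y := by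
        have : Metric.ball g (1 / 2) ∈ 𝓝 g := Metric.ball_mem_nhds _ (by norm_num)
        filter_upwards [this] with y hy
        rw [hg, mem_ball_zero_iff] at hy
        exact (hF0 y hy.le).symm
      exact ContinuousAt.congr continuousAt_const h1
    · have hop : IsOpen {y : EuclideanSpace ℝ (Fin m) | y ≠ 0} := isOpen_ne
      have h2 : ContinuousOn F {y : EuclideanSpace ℝ (Fin m) | y ≠ 0} := by
        rw [continuousOn_iff_continuous_domRestrict]
        have h3 : ({y : EuclideanSpace ℝ (Fin m) | y ≠ 0}).domRestrict F =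
            fun y : {y : EuclideanSpace ℝ (Fin m) | y ≠ 0} => (H (t ‖y.1‖, ⟨y.1, y.2⟩)).1 := by
          funext y
          exact dif_pos y.2
        rw [h3]
        refine continuous_subtype_val.comp (H.continuous.comp ?_)
        exact (ht.comp continuous_subtype_val.norm).prodMk
          (Continuous.subtype_mk continuous_subtype_val _)
      exact h2.continuousAt (hop.mem_nhds hg)
  have hn : ∀ g, 0 < ‖F g‖ := fun g => norm_pos_iff.2 (hF1 g)
  obtain ⟨u, hu⟩ := Pool.Agent.Helper31.GZ.Brouwer.brouwer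
    (fun g => -((‖F g‖)⁻¹ • F g))
    ((hFc.norm.inv₀ fun g => (hn g).ne').smul hFc).neg 1
    (fun g => by
      rw [norm_neg, norm_smul, norm_inv, norm_norm, inv_mul_cancel₀ (hn g).ne'])
  have hu1 : ‖u‖ = 1 := by
    rw [← hu, norm_neg, norm_smul, norm_inv, norm_norm, inv_mul_cancel₀ (hn u).ne']
  have hu0 : u ≠ 0 := by
    intro h
    rw [h, norm_zero] at hu1
    exact zero_ne_one hu1
  have hFu : F u = (f ⟨u, hu0⟩).1 := by
    simp only [F]
    rw [dif_pos hu0, hu1, ht1, H.apply_zero]
  refine hf ⟨u, hu0⟩ ‖F u‖ (norm_nonneg _) ?_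
  rw [← hFu]
  change F u = -(‖F u‖ • u)
  have h5 : ‖F u‖ • u = ‖F u‖ • (-((‖F u‖)⁻¹ • F u)) := congrArg (fun z => ‖F u‖ • z) hu.symm
  rw [h5, smul_neg, neg_neg, smul_smul, mul_inv_cancel₀ (hn u).ne', one_smul]

section facets

variable {m : ℕ} (b : AffineBasis (Fin (m + 1)) ℝ (EuclideanSpace ℝ (Fin m)))
  (q : EuclideanSpace ℝ (Fin m))

/-- the relative deficiency of the `i`-th barycentric coordinate -/
noncomputable def dfc (i : Fin (m + 1)) (v : EuclideanSpace ℝ (Fin m)) : ℝ :=
  (b.coord i q - b.coord i (q + v)) / b.coord i q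

/-- the gauge of the simplex about `q` -/
noncomputable def gg (v : EuclideanSpace ℝ (Fin m)) : ℝ :=
  Finset.univ.sup' Finset.univ_nonempty fun i => dfc b q i v

lemma continuous_dfc (i : Fin (m + 1)) : Continuous (dfc b q i) := by
  unfold dfc
  have h : Continuous (b.coord i) := AffineMap.continuous_of_finiteDimensional _
  have h2 : Continuous fun v => b.coord i (q + v) := h.comp (by fun_prop)
  fun_prop

lemma continuous_gg : Continuous (gg b q) := by
  unfold gg
  exact Continuous.finset_sup'_apply _ fun i _ => continuous_dfc b q i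

lemma dfc_le_gg (i : Fin (m + 1)) (v : EuclideanSpace ℝ (Fin m)) : dfc b q i v ≤ gg b q v :=
  Finset.le_sup' (fun i => dfc b q i v) (Finset.mem_univ i)

lemma gg_eq (v : EuclideanSpace ℝ (Fin m)) : ∃ i, gg b q v = dfc b q i v := by
  obtain ⟨i, -, hi⟩ := Finset.exists_mem_eq_sup' Finset.univ_nonempty fun i => dfc b q i v
  exact ⟨i, hi⟩

lemma coord_add (i : Fin (m + 1)) (v : EuclideanSpace ℝ (Fin m)) (hq : b.coord i q ≠ 0) :
    b.coord i (q + v) = b.coord i q * (1 - dfc b q i v) := by
  unfold dfc
  field_simp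
  ring

lemma coord_add_smul (i : Fin (m + 1)) (c : ℝ) (v : EuclideanSpace ℝ (Fin m)) :
    b.coord i (q + c • v) = b.coord i q + c * (b.coord i (q + v) - b.coord i q) := by
  have h1 : ∀ w, b.coord i (q + w) = b.coord i q + (b.coord i).linear w := by
    intro w
    have := (b.coord i).map_vadd q w
    rw [vadd_eq_add, vadd_eq_add] at this
    rw [add_comm q w, this, add_comm]
  rw [h1, h1, map_smul, smul_eq_mul]
  ring

lemma gg_pos (hq : ∀ i, 0 < b.coord i q) {v : EuclideanSpace ℝ (Fin m)} (hv : v ≠ 0) :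
    0 < gg b q v := by
  by_contra hcon
  rw [not_lt] at hcon
  have h1 : ∀ i, dfc b q i v ≤ 0 := fun i => (dfc_le_gg b q i v).trans hcon
  have h2 : ∑ i, b.coord i q * dfc b q i v = 0 := by
    have e : ∀ i, b.coord i q * dfc b q i v = b.coord i q - b.coord i (q + v) := by
      intro i
      rw [coord_add b q i v (hq i).ne']
      ring
    simp only [e, Finset.sum_sub_distrib, b.sum_coord_apply_eq_one, sub_self]
  have h3 : ∀ i, b.coord i q * dfc b q i v = 0 := by
    intro i
    have := (Finset.sum_eq_zero_iff_of_nonpos (s := Finset.univ)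
      (f := fun i => b.coord i q * dfc b q i v)
      (fun i _ => mul_nonpos_of_nonneg_of_nonpos (hq i).le (h1 i))).1 h2
    exact this i (Finset.mem_univ i)
  have h4 : ∀ i, b.coord i (q + v) = b.coord i q := by
    intro i
    rw [coord_add b q i v (hq i).ne', mul_sub, h3 i]
    ring
  have h5 : q + v = q := by
    rw [← b.linear_combination_coord_eq_self (q + v), ← b.linear_combination_coord_eq_self q]
    simp only [h4, b.linear_combination_coord_eq_self q]
  exact hv (by simpa using h5)

/-- the radial projection lands in a facet -/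
lemma radial_mem (hq : ∀ i, 0 < b.coord i q) {v : EuclideanSpace ℝ (Fin m)} (hv : v ≠ 0) :
    ∃ i, q + (gg b q v)⁻¹ • v ∈ convexHull ℝ (b '' {j | j ≠ i}) := by
  have hg := gg_pos b q hq hv
  have h1 : ∀ j, b.coord j (q + (gg b q v)⁻¹ • v) =
      b.coord j q * (1 - (gg b q v)⁻¹ * dfc b q j v) := by
    intro j
    rw [coord_add_smul, coord_add b q j v (hq j).ne']
    ring
  have h2 : ∀ j, 0 ≤ b.coord j (q + (gg b q v)⁻¹ • v) := by
    intro j
    rw [h1]
    refine mul_nonneg (hq j).le ?_
    have := dfc_le_gg b q j v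
    rw [sub_nonneg, inv_mul_le_iff₀ hg, mul_one]
    exact this
  obtain ⟨i, hi⟩ := gg_eq b q v
  refine ⟨i, ?_⟩
  have h3 : b.coord i (q + (gg b q v)⁻¹ • v) = 0 := by
    rw [h1, ← hi, inv_mul_cancel₀ hg.ne', sub_self, mul_zero]
  set x := q + (gg b q v)⁻¹ • v with hx
  rw [← b.linear_combination_coord_eq_self x]
  have h4 : ∑ j, b.coord j x • b j = ∑ j ∈ Finset.univ.erase i, b.coord j x • b j := by
    rw [← Finset.sum_erase_add _ _ (Finset.mem_univ i), h3, zero_smul, add_zero]
  have h5 : ∑ j ∈ Finset.univ.erase i, b.coord j x = 1 := by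
    rw [← b.sum_coord_apply_eq_one x, ← Finset.sum_erase_add _ _ (Finset.mem_univ i), h3, add_zero]
  rw [h4]
  refine (convex_convexHull ℝ _).sum_mem (fun j _ => h2 j) h5 ?_
  intro j hj
  exact subset_convexHull ℝ _ ⟨j, Finset.ne_of_mem_erase hj, rfl⟩

/-- the radial map into a set containing all facets -/
noncomputable def rad (hq : ∀ i, 0 < b.coord i q) (X : Set (EuclideanSpace ℝ (Fin m)))
    (hX : ∀ i, convexHull ℝ (b '' {j | j ≠ i}) ⊆ X) : C(Pu m, X) where
  toFun v := ⟨q + (gg b q v.1)⁻¹ • v.1, by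
    obtain ⟨i, hi⟩ := radial_mem b q hq v.2
    exact hX i hi⟩
  continuous_toFun := by
    refine Continuous.subtype_mk ?_ _
    have h1 : Continuous fun v : Pu m => gg b q v.1 :=
      (continuous_gg b q).comp continuous_subtype_val
    have h2 : ∀ v : Pu m, gg b q v.1 ≠ 0 := fun v => (gg_pos b q hq v.2).ne'
    exact continuous_const.add ((h1.inv₀ h2).smul continuous_subtype_val)

/-- The radial map is essential if the set misses `q`. -/
theorem rad_not_homotopic (hq : ∀ i, 0 < b.coord i q) (X : Set (EuclideanSpace ℝ (Fin m)))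
    (hX : ∀ i, convexHull ℝ (b '' {j | j ≠ i}) ⊆ X) (hqX : q ∉ X) :
    ¬ (rad b q hq X hX).Nullhomotopic := by
  rintro ⟨x0, hx0⟩
  let back : C(X, Pu m) := ⟨fun x => ⟨x.1 - q, fun h => hqX (by
    rw [sub_eq_zero] at h
    rw [← h]; exact x.2)⟩, by
      refine Continuous.subtype_mk ?_ _
      fun_prop⟩
  have h1 : ContinuousMap.Homotopic (back.comp (rad b q hq X hX))
      (back.comp (ContinuousMap.const (Pu m) x0)) :=
    ContinuousMap.Homotopic.comp (ContinuousMap.Homotopic.refl back) hx0
  have h2 : back.comp (ContinuousMap.const (Pu m) x0) = ContinuousMap.const (Pu m) (back x0) := by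
    ext1 v
    rfl
  rw [h2] at h1
  refine not_homotopic_const _ _ ?_ h1
  intro g c hc h
  have h3 : (q + (gg b q g.1)⁻¹ • g.1) - q = -(c • g.1) := h
  rw [add_sub_cancel_left, ← neg_smul] at h3
  have h4 : ((gg b q g.1)⁻¹ - -c) • g.1 = 0 := by rw [sub_smul, h3, sub_self]
  rcases smul_eq_zero.1 h4 with h5 | h5
  · have := inv_pos.2 (gg_pos b q hq g.2)
    linarith
  · exact g.2 h5

/-- A set which contains the facets of a simplex but misses an interior point of it is not
contractible. -/
theorem not_contractible (hq : ∀ i, 0 < b.coord i q) (X : Set (EuclideanSpace ℝ (Fin m)))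
    (hX : ∀ i, convexHull ℝ (b '' {j | j ≠ i}) ⊆ X) (hqX : q ∉ X) : ¬ ContractibleSpace X := by
  intro hc
  refine rad_not_homotopic b q hq X hX hqX ?_
  obtain ⟨x0, h0⟩ := id_nullhomotopic X
  refine ⟨x0, ?_⟩
  have h1 := ContinuousMap.Homotopic.comp h0 (ContinuousMap.Homotopic.refl (rad b q hq X hX))
  have h2 : (ContinuousMap.const X x0).comp (rad b q hq X hX) = ContinuousMap.const (Pu m) x0 := by
    ext1 v
    rfl
  rw [h2, ContinuousMap.id_comp] at h1
  exact h1

end facets

end Pool.Agent.V11212.Sh
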