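import Mathlib
import Pool.Agent.V11212.Sh.Obs

/-!
# The sample points near a straight segment
-/

set_option autoImplicit false

open Set Topology Metric

namespace Pool.Agent.V11212.Sh

/-- four-dimensional Euclidean space -/
abbrev E4 : Type := EuclideanSpace ℝ (Fin 4)

/-- The shadow of the Rips complex. -/
def shadow {N : ℕ} (β : ℝ) (S : Set (EuclideanSpace ℝ (Fin N))) : Set (EuclideanSpace ℝ (Fin N)) :=
  ⋃ σ ∈ {σ : Set (EuclideanSpace ℝ (Fin N)) | σ ⊆ S ∧ σ.Nonempty ∧ diam σ < β}, convexHull ℝ σ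

/-- points in sheared coordinates -/
noncomputable def pt (e z y₁ y₂ h : ℝ) : E4 := !₂[z, e * y₁, e * y₂, e * (h + y₁ + y₂)]

lemma dist_pt (e z y₁ y₂ h z' y₁' y₂' h' : ℝ) :
    dist (pt e z y₁ y₂ h) (pt e z' y₁' y₂' h') ^ 2 =
      (z - z') ^ 2 + e ^ 2 * ((y₁ - y₁') ^ 2 + (y₂ - y₂') ^ 2 +
        ((h - h') + (y₁ - y₁') + (y₂ - y₂')) ^ 2) := by
  rw [EuclideanSpace.dist_eq, Real.sq_sqrt (Finset.sum_nonneg fun i _ => sq_nonneg _)]
  simp only [pt, Fin.sum_univ_four, Real.dist_eq, sq_abs]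
  simp
  ring

lemma dist_lt_iff {β : ℝ} (hβ : 0 < β) (x y : E4) : dist x y < β ↔ dist x y ^ 2 < β ^ 2 :=
  (pow_lt_pow_iff_left₀ dist_nonneg hβ.le two_ne_zero).symm

/-- linear functionals on convex hulls -/
lemma hull_ge (c : Fin 4 → ℝ) (r : ℝ) (σ : Set E4) (h : ∀ y ∈ σ, r ≤ ∑ i, c i * y i) {x : E4}
    (hx : x ∈ convexHull ℝ σ) : r ≤ ∑ i, c i * x i := by
  have hl : IsLinearMap ℝ fun x : E4 => ∑ i, c i * x i := by
    constructor
    · intro x y
      simp only [PiLp.add_apply, mul_add, Finset.sum_add_distrib]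
    · intro a x
      simp only [PiLp.smul_apply, smul_eq_mul, Finset.mul_sum]
      exact Finset.sum_congr rfl fun i _ => by ring
  exact convexHull_min (s := σ) (fun y hy => h y hy) (convex_halfSpace_ge hl r) hx

/-- The parameters. -/
structure Par where
  /-- level distance is `τ`, the scale is `K τ` -/
  τ : ℝ
  /-- the number of levels in one scale -/
  K : ℕ
  /-- transversal size -/
  e : ℝ
  τpos : 0 < τ
  epos : 0 < e
  hK : 10 ≤ K
  small : 100000 * K * e ^ 2 ≤ τ ^ 2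

namespace Par

variable (P : Par)

/-- longitudinal shift unit -/
noncomputable def l : ℝ := P.e ^ 2 / P.τ

/-- the scale -/
noncomputable def β : ℝ := P.K * P.τ

lemma lpos : 0 < P.l := div_pos (pow_pos P.epos 2) P.τpos

lemma e2 : P.e ^ 2 = P.l * P.τ := by
  unfold l
  rw [div_mul_cancel₀ _ P.τpos.ne']

lemma Kge : (10 : ℝ) ≤ P.K := by exact_mod_cast P.hK

lemma Kpos : (0 : ℝ) < P.K := by linarith [P.Kge]

lemma βpos : 0 < P.β := mul_pos P.Kpos P.τpos

lemma lK : 100000 * (P.K * P.l) ≤ P.τ := by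
  have h := P.small
  rw [P.e2] at h
  have h2 : (100000 * (P.K * P.l)) * P.τ ≤ P.τ * P.τ := by nlinarith
  exact le_of_mul_le_mul_right h2 P.τpos

lemma l1 : 1000000 * P.l ≤ P.τ := by
  have h := P.lK
  have h2 : 10 * P.l ≤ P.K * P.l := mul_le_mul_of_nonneg_right P.Kge P.lpos.le
  linarith

/-- axis points -/
noncomputable def ax (j : ℤ) : E4 := pt P.e (j * P.τ) 0 0 0
/-- special point -/
noncomputable def a₁ : E4 := pt P.e 0 1 0 0
/-- special point -/
noncomputable def a₂ : E4 := pt P.e (56 * P.l) (-1) 0 0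
/-- special point -/
noncomputable def b₁ : E4 := pt P.e P.τ 0 1 0
/-- special point -/
noncomputable def b₂ : E4 := pt P.e (P.τ - 56 * P.l) 0 (-1) 0
/-- special point -/
noncomputable def c₁ : E4 := pt P.e (P.K * P.τ - P.l * (865 * P.K - 28)) (-7 * P.K) 0 (48 * P.K)
/-- special point -/
noncomputable def c₂ : E4 := pt P.e (P.K * P.τ - P.l * (185 * P.K - 28)) (3 * P.K) 0 (16 * P.K)
/-- special point -/
noncomputable def d₁ : E4 :=
  pt P.e (P.τ - (P.K * P.τ - P.l * (865 * P.K - 28))) 0 (-7 * P.K) (48 * P.K)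
/-- special point -/
noncomputable def d₂ : E4 :=
  pt P.e (P.τ - (P.K * P.τ - P.l * (185 * P.K - 28))) 0 (3 * P.K) (16 * P.K)

/-- the top vertex of the simplex -/
noncomputable def p : E4 := pt P.e (P.τ / 2) 0 0 4

/-- the missing point -/
noncomputable def q : E4 := pt P.e (P.τ / 2) 0 0 2

/-- the sample -/
noncomputable def S (J : ℕ) : Set E4 :=
  {x | ∃ j : ℤ, |j| ≤ J ∧ x = P.ax j} ∪ {P.a₁, P.a₂, P.b₁, P.b₂, P.c₁, P.c₂, P.d₁, P.d₂}

lemma mem_S {J : ℕ} {x : E4} (hx : x ∈ P.S J) : (∃ j : ℤ, x = P.ax j) ∨ x = P.a₁ ∨ x = P.a₂ ∨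
    x = P.b₁ ∨ x = P.b₂ ∨ x = P.c₁ ∨ x = P.c₂ ∨ x = P.d₁ ∨ x = P.d₂ := by
  rcases hx with ⟨j, -, hj⟩ | hx
  · exact Or.inl ⟨j, hj⟩
  · exact Or.inr hx

end Par

end Pool.Agent.V11212.Sh
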