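import Mathlib
import Pool.Agent.V11212.Sh.Geo

/-!
# Distances between the sample points
-/

set_option autoImplicit false

open Set Topology Metric

namespace Pool.Agent.V11212.Sh

namespace Par

variable (P : Par)

lemma Kl_nonneg : 0 ≤ P.K * P.l := mul_nonneg P.Kpos.le P.lpos.le

lemma Kτ_ge : 10 * P.τ ≤ P.K * P.τ := mul_le_mul_of_nonneg_right P.Kge P.τpos.le

/-- pairs of points whose levels differ by less than `K` -/
lemma easy (z y₁ y₂ h z' y₁' y₂' h' : ℝ) (h1 : z - z' ≤ (P.K - 1 / 2) * P.τ)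
    (h1' : z' - z ≤ (P.K - 1 / 2) * P.τ)
    (h2 : (y₁ - y₁') ^ 2 + (y₂ - y₂') ^ 2 + ((h - h') + (y₁ - y₁') + (y₂ - y₂')) ^ 2
      ≤ 2000 * P.K ^ 2) :
    dist (pt P.e z y₁ y₂ h) (pt P.e z' y₁' y₂' h') < P.β := by
  rw [dist_lt_iff P.βpos, dist_pt]
  have hτ := P.τpos
  have hl := P.lpos
  have hK := P.Kge
  have h3 : (z - z') ^ 2 ≤ ((P.K - 1 / 2) * P.τ) ^ 2 := by
    apply sq_le_sq'
    · linarith
    · linarith
  have h4 : P.e ^ 2 * ((y₁ - y₁') ^ 2 + (y₂ - y₂') ^ 2 +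
      ((h - h') + (y₁ - y₁') + (y₂ - y₂')) ^ 2) ≤ P.e ^ 2 * (2000 * P.K ^ 2) :=
    mul_le_mul_of_nonneg_left h2 (sq_nonneg _)
  have h5 := P.small
  have h6 : P.e ^ 2 * (2000 * P.K ^ 2) ≤ (1 / 50) * P.K * P.τ ^ 2 := by
    have : P.K * (100000 * P.K * P.e ^ 2) ≤ P.K * P.τ ^ 2 := mul_le_mul_of_nonneg_left h5 P.Kpos.le
    nlinarith
  have h7 : 0 < P.τ ^ 2 := pow_pos hτ 2
  unfold β
  nlinarith

/-- pairs at the critical level difference, within the threshold -/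
lemma tie_lt (z y₁ y₂ h z' y₁' y₂' h' s : ℝ) (hz : z - z' = P.K * P.τ - P.l * s)
    (hs : s ^ 2 ≤ 1000000 * P.K ^ 2)
    (h2 : (y₁ - y₁') ^ 2 + (y₂ - y₂') ^ 2 + ((h - h') + (y₁ - y₁') + (y₂ - y₂')) ^ 2
      ≤ 2 * P.K * s - (12 * P.K - 2)) :
    dist (pt P.e z y₁ y₂ h) (pt P.e z' y₁' y₂' h') < P.β := by
  rw [dist_lt_iff P.βpos, dist_pt, hz, P.e2]
  have hτ := P.τpos
  have hl := P.lpos
  have hK := P.Kge
  have hlτ : 0 < P.l * P.τ := mul_pos hl hτ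
  have h4 := mul_le_mul_of_nonneg_left h2 hlτ.le
  have h5 := P.lK
  have h6 : P.l ^ 2 * s ^ 2 ≤ 10 * P.K * (P.l * P.τ) := by
    have e1 : P.l ^ 2 * s ^ 2 ≤ P.l ^ 2 * (1000000 * P.K ^ 2) :=
      mul_le_mul_of_nonneg_left hs (sq_nonneg _)
    have e2 : 10 * (P.K * P.l) * (100000 * (P.K * P.l)) ≤ 10 * (P.K * P.l) * P.τ :=
      mul_le_mul_of_nonneg_left h5 (by have := P.Kl_nonneg; linarith)
    nlinarith
  have h7 : 0 < (P.l * P.τ) * (2 * P.K - 2) := mul_pos hlτ (by linarith)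
  unfold β
  nlinarith

/-- pairs at the critical level difference, beyond the threshold -/
lemma tie_ge (z y₁ y₂ h z' y₁' y₂' h' s : ℝ) (hz : P.K * P.τ - P.l * s ≤ z - z')
    (hs : P.l * s ≤ P.K * P.τ)
    (h2 : 2 * P.K * s ≤
      (y₁ - y₁') ^ 2 + (y₂ - y₂') ^ 2 + ((h - h') + (y₁ - y₁') + (y₂ - y₂')) ^ 2) :
    ¬ dist (pt P.e z y₁ y₂ h) (pt P.e z' y₁' y₂' h') < P.β := by
  rw [dist_lt_iff P.βpos, dist_pt, P.e2, not_lt]
  have hlτ : 0 < P.l * P.τ := mul_pos P.lpos P.τpos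
  have h4 := mul_le_mul_of_nonneg_left h2 hlτ.le
  have h5 : (P.K * P.τ - P.l * s) ^ 2 ≤ (z - z') ^ 2 := by
    apply pow_le_pow_left₀ (by linarith) hz
  unfold β
  nlinarith [sq_nonneg (P.l * s)]

/-- pairs of points whose levels differ by more than `K` -/
lemma far (z y₁ y₂ h z' y₁' y₂' h' : ℝ) (hz : P.K * P.τ ≤ z - z') :
    ¬ dist (pt P.e z y₁ y₂ h) (pt P.e z' y₁' y₂' h') < P.β := by
  refine P.tie_ge z y₁ y₂ h z' y₁' y₂' h' 0 (by simpa using hz) ?_ (by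
    rw [mul_zero]; positivity)
  rw [mul_zero]
  exact P.βpos.le

lemma c₁_a₁ : dist P.c₁ P.a₁ < P.β := by
  have hK := P.Kge
  refine P.tie_lt _ _ _ _ _ _ _ _ (865 * P.K - 28) (by ring) (by nlinarith) (by nlinarith)

lemma c₂_a₂ : dist P.c₂ P.a₂ < P.β := by
  have hK := P.Kge
  refine P.tie_lt _ _ _ _ _ _ _ _ (185 * P.K + 28) (by ring) (by nlinarith) (by nlinarith)

lemma d₁_b₁ : dist P.b₁ P.d₁ < P.β := by
  have hK := P.Kge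
  refine P.tie_lt _ _ _ _ _ _ _ _ (865 * P.K - 28) (by ring) (by nlinarith) (by nlinarith)

lemma d₂_b₂ : dist P.b₂ P.d₂ < P.β := by
  have hK := P.Kge
  refine P.tie_lt _ _ _ _ _ _ _ _ (185 * P.K + 28) (by ring) (by nlinarith) (by nlinarith)

lemma hs₁ : P.l * (865 * P.K + 28) ≤ P.K * P.τ := by
  have h1 := P.lK
  have h2 := P.l1
  have h3 := P.lpos
  have h4 := P.Kτ_ge
  have h5 := P.τpos
  nlinarith

lemma hs₀ : P.l * (865 * P.K - 28) ≤ P.K * P.τ := by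
  have h1 := P.hs₁
  have h3 := P.lpos
  nlinarith

lemma hs₂ : P.l * (185 * P.K - 28) ≤ P.K * P.τ := by
  have h1 := P.hs₁
  have h3 := P.lpos
  have h2 := P.Kl_nonneg
  nlinarith

lemma c₁_a₂ : ¬ dist P.c₁ P.a₂ < P.β := by
  refine P.tie_ge _ _ _ _ _ _ _ _ (865 * P.K + 28) (by nlinarith) P.hs₁ (by nlinarith [P.Kge])

lemma c₂_a₁ : ¬ dist P.c₂ P.a₁ < P.β := by
  refine P.tie_ge _ _ _ _ _ _ _ _ (185 * P.K - 28) (by nlinarith) P.hs₂ (by nlinarith [P.Kge])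

lemma d₁_b₂ : ¬ dist P.b₂ P.d₁ < P.β := by
  refine P.tie_ge _ _ _ _ _ _ _ _ (865 * P.K + 28) (by nlinarith) P.hs₁ (by nlinarith [P.Kge])

lemma d₂_b₁ : ¬ dist P.b₁ P.d₂ < P.β := by
  refine P.tie_ge _ _ _ _ _ _ _ _ (185 * P.K - 28) (by nlinarith) P.hs₂ (by nlinarith [P.Kge])

lemma c₁_ax (j : ℤ) (hj : j ≤ 0) : ¬ dist P.c₁ (P.ax j) < P.β := by
  have h1 : (j : ℝ) * P.τ ≤ 0 := mul_nonpos_of_nonpos_of_nonneg (by exact_mod_cast hj) P.τpos.le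
  refine P.tie_ge _ _ _ _ _ _ _ _ (865 * P.K - 28) (by linarith) P.hs₀ (by nlinarith [P.Kge])

lemma c₂_ax (j : ℤ) (hj : j ≤ 0) : ¬ dist P.c₂ (P.ax j) < P.β := by
  have h1 : (j : ℝ) * P.τ ≤ 0 := mul_nonpos_of_nonpos_of_nonneg (by exact_mod_cast hj) P.τpos.le
  refine P.tie_ge _ _ _ _ _ _ _ _ (185 * P.K - 28) (by linarith) P.hs₂ (by nlinarith [P.Kge])

lemma d₁_ax (j : ℤ) (hj : 1 ≤ j) : ¬ dist (P.ax j) P.d₁ < P.β := by
  have h1 : 1 * P.τ ≤ (j : ℝ) * P.τ := mul_le_mul_of_nonneg_right (by exact_mod_cast hj) P.τpos.le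
  refine P.tie_ge _ _ _ _ _ _ _ _ (865 * P.K - 28) (by linarith) P.hs₀ (by nlinarith [P.Kge])

lemma d₂_ax (j : ℤ) (hj : 1 ≤ j) : ¬ dist (P.ax j) P.d₂ < P.β := by
  have h1 : 1 * P.τ ≤ (j : ℝ) * P.τ := mul_le_mul_of_nonneg_right (by exact_mod_cast hj) P.τpos.le
  refine P.tie_ge _ _ _ _ _ _ _ _ (185 * P.K - 28) (by linarith) P.hs₂ (by nlinarith [P.Kge])

lemma c₁_d₁ : ¬ dist P.c₁ P.d₁ < P.β := by
  have h1 := P.lK
  have h3 := P.lpos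
  have h4 := P.Kτ_ge
  have h5 := P.τpos
  refine P.far _ _ _ _ _ _ _ _ (by nlinarith)

lemma c₁_d₂ : ¬ dist P.c₁ P.d₂ < P.β := by
  have h1 := P.lK
  have h3 := P.lpos
  have h4 := P.Kτ_ge
  have h5 := P.τpos
  refine P.far _ _ _ _ _ _ _ _ (by nlinarith)

lemma c₂_d₁ : ¬ dist P.c₂ P.d₁ < P.β := by
  have h1 := P.lK
  have h3 := P.lpos
  have h4 := P.Kτ_ge
  have h5 := P.τpos
  refine P.far _ _ _ _ _ _ _ _ (by nlinarith)

lemma c₂_d₂ : ¬ dist P.c₂ P.d₂ < P.β := by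
  have h1 := P.lK
  have h3 := P.lpos
  have h4 := P.Kτ_ge
  have h5 := P.τpos
  refine P.far _ _ _ _ _ _ _ _ (by nlinarith)

end Par

end Pool.Agent.V11212.Sh
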