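import Mathlib
import Pool.Agent.V11212.Sh.Adj

/-!
# The facets of the simplex lie in the shadow
-/

set_option autoImplicit false

open Set Topology Metric

namespace Pool.Agent.V11212.Sh

lemma hull_subset_shadow {N : ℕ} {β : ℝ} {S σ : Set (EuclideanSpace ℝ (Fin N))} (hβ : 0 < β)
    (hσ : σ ⊆ S) (hne : σ.Nonempty) (hf : σ.Finite) (hd : σ.Pairwise fun x y => dist x y < β) :
    convexHull ℝ σ ⊆ shadow β S := by
  have hd' : ∀ x ∈ σ, ∀ y ∈ σ, dist x y < β := by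
    intro x hx y hy
    by_cases hxy : x = y
    · rw [hxy, dist_self]; exact hβ
    · exact hd hx hy hxy
  have hdiam : diam σ < β := by
    obtain ⟨z, hz, hmax⟩ := (hf.prod hf).exists_maximalFor (fun z => dist z.1 z.2) (σ ×ˢ σ)
      (hne.prod hne)
    refine lt_of_le_of_lt (diam_le_of_forall_dist_le (C := dist z.1 z.2) dist_nonneg ?_)
      (hd' _ hz.1 _ hz.2)
    intro x hx y hy
    rcases le_total (dist x y) (dist z.1 z.2) with h | h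
    · exact h
    · exact hmax (j := (x, y)) ⟨hx, hy⟩ h
  intro x hx
  simp only [shadow, mem_iUnion]
  exact ⟨σ, ⟨hσ, hne, hdiam⟩, hx⟩

lemma comb5 {C : Set E4} (hC : Convex ℝ C) {x₁ x₂ x₃ x₄ x₅ : E4} (h₁ : x₁ ∈ C) (h₂ : x₂ ∈ C)
    (h₃ : x₃ ∈ C) (h₄ : x₄ ∈ C) (h₅ : x₅ ∈ C) {w₁ w₂ w₃ w₄ w₅ : ℝ} (g₁ : 0 ≤ w₁) (g₂ : 0 ≤ w₂)
    (g₃ : 0 ≤ w₃) (g₄ : 0 ≤ w₄) (g₅ : 0 ≤ w₅) (hw : w₁ + w₂ + w₃ + w₄ + w₅ = 1) :
    w₁ • x₁ + w₂ • x₂ + w₃ • x₃ + w₄ • x₄ + w₅ • x₅ ∈ C := by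
  have h := hC.sum_mem (t := Finset.univ) (w := ![w₁, w₂, w₃, w₄, w₅])
    (z := ![x₁, x₂, x₃, x₄, x₅]) (by
      intro i _
      fin_cases i <;> simpa) (by simpa [Fin.sum_univ_five] using hw) (by
      intro i _
      fin_cases i <;> simpa)
  simpa [Fin.sum_univ_five] using h

lemma pt_comb5 (e w₁ w₂ w₃ w₄ w₅ z₁ z₂ z₃ z₄ z₅ s₁ s₂ s₃ s₄ s₅ t₁ t₂ t₃ t₄ t₅ h₁ h₂ h₃ h₄ h₅ : ℝ) :
    w₁ • pt e z₁ s₁ t₁ h₁ + w₂ • pt e z₂ s₂ t₂ h₂ + w₃ • pt e z₃ s₃ t₃ h₃ +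
      w₄ • pt e z₄ s₄ t₄ h₄ + w₅ • pt e z₅ s₅ t₅ h₅ =
    pt e (w₁ * z₁ + w₂ * z₂ + w₃ * z₃ + w₄ * z₄ + w₅ * z₅)
      (w₁ * s₁ + w₂ * s₂ + w₃ * s₃ + w₄ * s₄ + w₅ * s₅)
      (w₁ * t₁ + w₂ * t₂ + w₃ * t₃ + w₄ * t₄ + w₅ * t₅)
      (w₁ * h₁ + w₂ * h₂ + w₃ * h₃ + w₄ * h₄ + w₅ * h₅) := by
  ext i
  fin_cases i <;> simp [pt] <;> ring

namespace Par

variable (P : Par)

/-- a simplex on the right -/
def C₁ : Set E4 := {P.a₁, P.b₁, P.b₂, P.ax 2, P.c₁}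
/-- a simplex on the right -/
def C₂ : Set E4 := {P.a₂, P.b₁, P.b₂, P.ax 2, P.c₂}
/-- a simplex on the left -/
def D₁ : Set E4 := {P.b₁, P.a₁, P.a₂, P.ax (-1), P.d₁}
/-- a simplex on the left -/
def D₂ : Set E4 := {P.b₂, P.a₁, P.a₂, P.ax (-1), P.d₂}
/-- the base -/
def B₀ : Set E4 := {P.a₁, P.a₂, P.b₁, P.b₂}

section easy

lemma a₁_a₂ : dist P.a₁ P.a₂ < P.β := by
  have hK := P.Kge
  have h1 := P.l1
  have h2 := P.lpos
  have h3 := P.τpos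
  refine P.easy _ _ _ _ _ _ _ _ (by nlinarith) (by nlinarith) (by nlinarith)

lemma a₁_b₁ : dist P.a₁ P.b₁ < P.β := by
  have hK := P.Kge
  have h1 := P.l1
  have h2 := P.lpos
  have h3 := P.τpos
  refine P.easy _ _ _ _ _ _ _ _ (by nlinarith) (by nlinarith) (by nlinarith)

lemma a₁_b₂ : dist P.a₁ P.b₂ < P.β := by
  have hK := P.Kge
  have h1 := P.l1
  have h2 := P.lpos
  have h3 := P.τpos
  refine P.easy _ _ _ _ _ _ _ _ (by nlinarith) (by nlinarith) (by nlinarith)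

lemma a₂_b₁ : dist P.a₂ P.b₁ < P.β := by
  have hK := P.Kge
  have h1 := P.l1
  have h2 := P.lpos
  have h3 := P.τpos
  refine P.easy _ _ _ _ _ _ _ _ (by nlinarith) (by nlinarith) (by nlinarith)

lemma a₂_b₂ : dist P.a₂ P.b₂ < P.β := by
  have hK := P.Kge
  have h1 := P.l1
  have h2 := P.lpos
  have h3 := P.τpos
  refine P.easy _ _ _ _ _ _ _ _ (by nlinarith) (by nlinarith) (by nlinarith)

lemma b₁_b₂ : dist P.b₁ P.b₂ < P.β := by
  have hK := P.Kge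
  have h1 := P.l1
  have h2 := P.lpos
  have h3 := P.τpos
  refine P.easy _ _ _ _ _ _ _ _ (by nlinarith) (by nlinarith) (by nlinarith)

lemma a₁_ax (j : ℤ) (hj : j = 2 ∨ j = -1) : dist P.a₁ (P.ax j) < P.β := by
  have hK := P.Kge
  have h1 := P.l1
  have h2 := P.lpos
  have h3 := P.τpos
  rcases hj with rfl | rfl <;>
  refine P.easy _ _ _ _ _ _ _ _ (by push_cast; nlinarith) (by push_cast; nlinarith) (by nlinarith)

lemma a₂_ax (j : ℤ) (hj : j = 2 ∨ j = -1) : dist P.a₂ (P.ax j) < P.β := by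
  have hK := P.Kge
  have h1 := P.l1
  have h2 := P.lpos
  have h3 := P.τpos
  rcases hj with rfl | rfl <;>
  refine P.easy _ _ _ _ _ _ _ _ (by push_cast; nlinarith) (by push_cast; nlinarith) (by nlinarith)

lemma b₁_ax (j : ℤ) (hj : j = 2 ∨ j = -1) : dist P.b₁ (P.ax j) < P.β := by
  have hK := P.Kge
  have h1 := P.l1
  have h2 := P.lpos
  have h3 := P.τpos
  rcases hj with rfl | rfl <;>
  refine P.easy _ _ _ _ _ _ _ _ (by push_cast; nlinarith) (by push_cast; nlinarith) (by nlinarith)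

lemma b₂_ax (j : ℤ) (hj : j = 2 ∨ j = -1) : dist P.b₂ (P.ax j) < P.β := by
  have hK := P.Kge
  have h1 := P.l1
  have h2 := P.lpos
  have h3 := P.τpos
  rcases hj with rfl | rfl <;>
  refine P.easy _ _ _ _ _ _ _ _ (by push_cast; nlinarith) (by push_cast; nlinarith) (by nlinarith)

lemma c₁_ax2 : dist P.c₁ (P.ax 2) < P.β := by
  have hK := P.Kge
  have h1 := P.lK
  have h2 := P.lpos
  have h3 := P.τpos
  have h4 := P.Kτ_ge
  have h5 := P.l1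
  refine P.easy _ _ _ _ _ _ _ _ (by push_cast; nlinarith) (by push_cast; nlinarith) (by nlinarith)

lemma c₂_ax2 : dist P.c₂ (P.ax 2) < P.β := by
  have hK := P.Kge
  have h1 := P.lK
  have h2 := P.lpos
  have h3 := P.τpos
  have h4 := P.Kτ_ge
  have h5 := P.l1
  refine P.easy _ _ _ _ _ _ _ _ (by push_cast; nlinarith) (by push_cast; nlinarith) (by nlinarith)

lemma d₁_ax1 : dist P.d₁ (P.ax (-1)) < P.β := by
  have hK := P.Kge
  have h1 := P.lK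
  have h2 := P.lpos
  have h3 := P.τpos
  have h4 := P.Kτ_ge
  have h5 := P.l1
  refine P.easy _ _ _ _ _ _ _ _ (by push_cast; nlinarith) (by push_cast; nlinarith) (by nlinarith)

lemma d₂_ax1 : dist P.d₂ (P.ax (-1)) < P.β := by
  have hK := P.Kge
  have h1 := P.lK
  have h2 := P.lpos
  have h3 := P.τpos
  have h4 := P.Kτ_ge
  have h5 := P.l1
  refine P.easy _ _ _ _ _ _ _ _ (by push_cast; nlinarith) (by push_cast; nlinarith) (by nlinarith)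

lemma c₁_b₁ : dist P.c₁ P.b₁ < P.β := by
  have hK := P.Kge
  have h1 := P.lK
  have h2 := P.lpos
  have h3 := P.τpos
  have h4 := P.Kτ_ge
  have h5 := P.l1
  refine P.easy _ _ _ _ _ _ _ _ (by nlinarith) (by nlinarith) (by nlinarith)

lemma c₁_b₂ : dist P.c₁ P.b₂ < P.β := by
  have hK := P.Kge
  have h1 := P.lK
  have h2 := P.lpos
  have h3 := P.τpos
  have h4 := P.Kτ_ge
  have h5 := P.l1
  refine P.easy _ _ _ _ _ _ _ _ (by nlinarith) (by nlinarith) (by nlinarith)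

lemma c₂_b₁ : dist P.c₂ P.b₁ < P.β := by
  have hK := P.Kge
  have h1 := P.lK
  have h2 := P.lpos
  have h3 := P.τpos
  have h4 := P.Kτ_ge
  have h5 := P.l1
  refine P.easy _ _ _ _ _ _ _ _ (by nlinarith) (by nlinarith) (by nlinarith)

lemma c₂_b₂ : dist P.c₂ P.b₂ < P.β := by
  have hK := P.Kge
  have h1 := P.lK
  have h2 := P.lpos
  have h3 := P.τpos
  have h4 := P.Kτ_ge
  have h5 := P.l1
  refine P.easy _ _ _ _ _ _ _ _ (by nlinarith) (by nlinarith) (by nlinarith)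

lemma d₁_a₁ : dist P.d₁ P.a₁ < P.β := by
  have hK := P.Kge
  have h1 := P.lK
  have h2 := P.lpos
  have h3 := P.τpos
  have h4 := P.Kτ_ge
  have h5 := P.l1
  refine P.easy _ _ _ _ _ _ _ _ (by nlinarith) (by nlinarith) (by nlinarith)

lemma d₁_a₂ : dist P.d₁ P.a₂ < P.β := by
  have hK := P.Kge
  have h1 := P.lK
  have h2 := P.lpos
  have h3 := P.τpos
  have h4 := P.Kτ_ge
  have h5 := P.l1
  refine P.easy _ _ _ _ _ _ _ _ (by nlinarith) (by nlinarith) (by nlinarith)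

lemma d₂_a₁ : dist P.d₂ P.a₁ < P.β := by
  have hK := P.Kge
  have h1 := P.lK
  have h2 := P.lpos
  have h3 := P.τpos
  have h4 := P.Kτ_ge
  have h5 := P.l1
  refine P.easy _ _ _ _ _ _ _ _ (by nlinarith) (by nlinarith) (by nlinarith)

lemma d₂_a₂ : dist P.d₂ P.a₂ < P.β := by
  have hK := P.Kge
  have h1 := P.lK
  have h2 := P.lpos
  have h3 := P.τpos
  have h4 := P.Kτ_ge
  have h5 := P.l1
  refine P.easy _ _ _ _ _ _ _ _ (by nlinarith) (by nlinarith) (by nlinarith)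

end easy

lemma symm_lt (β : ℝ) : Std.Symm fun x y : E4 => dist x y < β := by
  refine ⟨fun x y h => ?_⟩
  rw [dist_comm]
  exact h

lemma pw5 {β : ℝ} {x₁ x₂ x₃ x₄ x₅ : E4} (h₁₂ : dist x₁ x₂ < β) (h₁₃ : dist x₁ x₃ < β)
    (h₁₄ : dist x₁ x₄ < β) (h₁₅ : dist x₁ x₅ < β) (h₂₃ : dist x₂ x₃ < β) (h₂₄ : dist x₂ x₄ < β)
    (h₂₅ : dist x₂ x₅ < β) (h₃₄ : dist x₃ x₄ < β) (h₃₅ : dist x₃ x₅ < β) (h₄₅ : dist x₄ x₅ < β) :
    ({x₁, x₂, x₃, x₄, x₅} : Set E4).Pairwise fun x y => dist x y < β := by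
  have hs := symm_lt β
  rw [Set.pairwise_insert_of_symm, Set.pairwise_insert_of_symm,
    Set.pairwise_insert_of_symm, Set.pairwise_insert_of_symm]
  simp only [mem_insert_iff, mem_singleton_iff, forall_eq_or_imp, forall_eq]
  refine ⟨⟨⟨⟨pairwise_singleton _ _, fun _ => h₄₅⟩, fun _ => h₃₄, fun _ => h₃₅⟩,
    fun _ => h₂₃, fun _ => h₂₄, fun _ => h₂₅⟩, fun _ => h₁₂, fun _ => h₁₃, fun _ => h₁₄,
    fun _ => h₁₅⟩

lemma comm_lt {β : ℝ} {x y : E4} (h : dist x y < β) : dist y x < β := by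
  rw [dist_comm]; exact h

lemma C₁_sub {J : ℕ} (hJ : 2 ≤ J) : convexHull ℝ P.C₁ ⊆ shadow P.β (P.S J) := by
  refine hull_subset_shadow P.βpos ?_ ⟨_, Or.inl rfl⟩ (by simp [C₁]) ?_
  · intro x hx
    rcases hx with rfl | rfl | rfl | rfl | rfl
    · exact Or.inr (by simp)
    · exact Or.inr (by simp)
    · exact Or.inr (by simp)
    · exact Or.inl ⟨2, by simpa using hJ, rfl⟩
    · exact Or.inr (by simp)
  · exact pw5 P.a₁_b₁ P.a₁_b₂ (P.a₁_ax 2 (Or.inl rfl)) (comm_lt P.c₁_a₁) P.b₁_b₂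
      (P.b₁_ax 2 (Or.inl rfl)) (comm_lt P.c₁_b₁) (P.b₂_ax 2 (Or.inl rfl)) (comm_lt P.c₁_b₂)
      (comm_lt P.c₁_ax2)

lemma C₂_sub {J : ℕ} (hJ : 2 ≤ J) : convexHull ℝ P.C₂ ⊆ shadow P.β (P.S J) := by
  refine hull_subset_shadow P.βpos ?_ ⟨_, Or.inl rfl⟩ (by simp [C₂]) ?_
  · intro x hx
    rcases hx with rfl | rfl | rfl | rfl | rfl
    · exact Or.inr (by simp)
    · exact Or.inr (by simp)
    · exact Or.inr (by simp)
    · exact Or.inl ⟨2, by simpa using hJ, rfl⟩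
    · exact Or.inr (by simp)
  · exact pw5 P.a₂_b₁ P.a₂_b₂ (P.a₂_ax 2 (Or.inl rfl)) (comm_lt P.c₂_a₂) P.b₁_b₂
      (P.b₁_ax 2 (Or.inl rfl)) (comm_lt P.c₂_b₁) (P.b₂_ax 2 (Or.inl rfl)) (comm_lt P.c₂_b₂)
      (comm_lt P.c₂_ax2)

lemma D₁_sub {J : ℕ} (hJ : 2 ≤ J) : convexHull ℝ P.D₁ ⊆ shadow P.β (P.S J) := by
  refine hull_subset_shadow P.βpos ?_ ⟨_, Or.inl rfl⟩ (by simp [D₁]) ?_
  · intro x hx
    rcases hx with rfl | rfl | rfl | rfl | rfl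
    · exact Or.inr (by simp)
    · exact Or.inr (by simp)
    · exact Or.inr (by simp)
    · exact Or.inl ⟨-1, by rw [abs_neg, abs_one]; exact_mod_cast (by omega : 1 ≤ J), rfl⟩
    · exact Or.inr (by simp)
  · exact pw5 (comm_lt P.a₁_b₁) (comm_lt P.a₂_b₁) (P.b₁_ax (-1) (Or.inr rfl)) P.d₁_b₁ P.a₁_a₂
      (P.a₁_ax (-1) (Or.inr rfl)) (comm_lt P.d₁_a₁) (P.a₂_ax (-1) (Or.inr rfl))
      (comm_lt P.d₁_a₂) (comm_lt P.d₁_ax1)

lemma D₂_sub {J : ℕ} (hJ : 2 ≤ J) : convexHull ℝ P.D₂ ⊆ shadow P.β (P.S J) := by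
  refine hull_subset_shadow P.βpos ?_ ⟨_, Or.inl rfl⟩ (by simp [D₂]) ?_
  · intro x hx
    rcases hx with rfl | rfl | rfl | rfl | rfl
    · exact Or.inr (by simp)
    · exact Or.inr (by simp)
    · exact Or.inr (by simp)
    · exact Or.inl ⟨-1, by rw [abs_neg, abs_one]; exact_mod_cast (by omega : 1 ≤ J), rfl⟩
    · exact Or.inr (by simp)
  · exact pw5 (comm_lt P.a₁_b₂) (comm_lt P.a₂_b₂) (P.b₂_ax (-1) (Or.inr rfl)) P.d₂_b₂ P.a₁_a₂
      (P.a₁_ax (-1) (Or.inr rfl)) (comm_lt P.d₂_a₁) (P.a₂_ax (-1) (Or.inr rfl))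
      (comm_lt P.d₂_a₂) (comm_lt P.d₂_ax1)

lemma B₀_sub {J : ℕ} : convexHull ℝ P.B₀ ⊆ shadow P.β (P.S J) := by
  refine hull_subset_shadow P.βpos ?_ ⟨_, Or.inl rfl⟩ (by simp [B₀]) ?_
  · intro x hx
    rcases hx with rfl | rfl | rfl | rfl
    · exact Or.inr (by simp)
    · exact Or.inr (by simp)
    · exact Or.inr (by simp)
    · exact Or.inr (by simp)
  · have h := pw5 P.a₁_a₂ P.a₁_b₁ P.a₁_b₂ P.a₁_b₂ P.a₂_b₁ P.a₂_b₂ P.a₂_b₂ P.b₁_b₂ P.b₁_b₂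
      (show dist P.b₂ P.b₂ < P.β by rw [dist_self]; exact P.βpos)
    refine h.mono ?_
    simp [B₀]

lemma p_mem_C₁ : P.p ∈ convexHull ℝ P.C₁ := by
  have hK := P.Kge
  have hKp := P.Kpos
  have hl := P.lpos
  have hl1 := P.l1
  have hτ := P.τpos
  obtain ⟨k, hk⟩ : ∃ k : ℝ, k * P.K = 1 := ⟨(P.K : ℝ)⁻¹, inv_mul_cancel₀ hKp.ne'⟩
  have hk0 : 0 < k := by
    by_contra h
    rw [not_lt] at h
    nlinarith
  have hk1 : k ≤ 1 / 10 := by nlinarith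
  have hden : 0 < 2 * P.τ + 56 * P.l := by linarith
  set num : ℝ := P.τ * (5 / 12 - k / 6) - P.l * (865 - 28 * k) / 12 with hnum
  set B : ℝ := num / (2 * P.τ + 56 * P.l) with hB
  have hB' : B * (2 * P.τ + 56 * P.l) = num := div_mul_cancel₀ _ hden.ne'
  have hkl : 0 < k * P.l := mul_pos hk0 hl
  have hkl' : k * P.l ≤ P.l / 10 := by nlinarith
  have hkτ : 0 < k * P.τ := mul_pos hk0 hτ
  have hkτ' : k * P.τ ≤ P.τ / 10 := by nlinarith
  have hnum0 : 0 ≤ num := by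
    rw [hnum]
    nlinarith
  have hB0 : 0 ≤ B := div_nonneg hnum0 hden.le
  have hG0 : 0 ≤ 5 / 12 - k / 12 - 2 * B := by
    have : 0 ≤ (5 / 12 - k / 12 - 2 * B) * (2 * P.τ + 56 * P.l) := by
      rw [sub_mul, mul_assoc 2 B, hB', hnum]
      nlinarith
    exact nonneg_of_mul_nonneg_left this hden
  have hmem : ∀ x ∈ P.C₁, x ∈ convexHull ℝ P.C₁ := fun x hx => subset_convexHull ℝ _ hx
  have h := comb5 (convex_convexHull ℝ P.C₁) (hmem P.a₁ (by simp [C₁])) (hmem P.b₁ (by simp [C₁]))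
    (hmem P.b₂ (by simp [C₁])) (hmem (P.ax 2) (by simp [C₁])) (hmem P.c₁ (by simp [C₁]))
    (w₁ := 7 / 12) (w₂ := B) (w₃ := B) (w₄ := 5 / 12 - k / 12 - 2 * B) (w₅ := k / 12)
    (by norm_num) hB0 hB0 hG0 (by positivity) (by ring)
  have e : (7 / 12 : ℝ) • P.a₁ + B • P.b₁ + B • P.b₂ + (5 / 12 - k / 12 - 2 * B) • P.ax 2 +
      (k / 12) • P.c₁ = P.p := by
    unfold a₁ b₁ b₂ ax c₁ p
    rw [pt_comb5]
    congr 1
    · push_cast
      rw [hnum] at hB'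
      linear_combination -1 * hB' + ((P.τ - 865 * P.l) / 12) * hk
    · linear_combination (-7 / 12) * hk
    · ring
    · linear_combination 4 * hk
  rw [← e]
  exact h

lemma p_mem_D₁ : P.p ∈ convexHull ℝ P.D₁ := by
  have hK := P.Kge
  have hKp := P.Kpos
  have hl := P.lpos
  have hl1 := P.l1
  have hτ := P.τpos
  obtain ⟨k, hk⟩ : ∃ k : ℝ, k * P.K = 1 := ⟨(P.K : ℝ)⁻¹, inv_mul_cancel₀ hKp.ne'⟩
  have hk0 : 0 < k := by
    by_contra h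
    rw [not_lt] at h
    nlinarith
  have hk1 : k ≤ 1 / 10 := by nlinarith
  have hden : 0 < 2 * P.τ + 56 * P.l := by linarith
  set num : ℝ := P.τ * (5 / 12 - k / 6) - P.l * (865 - 28 * k) / 12 with hnum
  set B : ℝ := num / (2 * P.τ + 56 * P.l) with hB
  have hB' : B * (2 * P.τ + 56 * P.l) = num := div_mul_cancel₀ _ hden.ne'
  have hkl : 0 < k * P.l := mul_pos hk0 hl
  have hkl' : k * P.l ≤ P.l / 10 := by nlinarith
  have hkτ : 0 < k * P.τ := mul_pos hk0 hτ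
  have hkτ' : k * P.τ ≤ P.τ / 10 := by nlinarith
  have hnum0 : 0 ≤ num := by
    rw [hnum]
    nlinarith
  have hB0 : 0 ≤ B := div_nonneg hnum0 hden.le
  have hG0 : 0 ≤ 5 / 12 - k / 12 - 2 * B := by
    have : 0 ≤ (5 / 12 - k / 12 - 2 * B) * (2 * P.τ + 56 * P.l) := by
      rw [sub_mul, mul_assoc 2 B, hB', hnum]
      nlinarith
    exact nonneg_of_mul_nonneg_left this hden
  have hmem : ∀ x ∈ P.D₁, x ∈ convexHull ℝ P.D₁ := fun x hx => subset_convexHull ℝ _ hx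
  have h := comb5 (convex_convexHull ℝ P.D₁) (hmem P.b₁ (by simp [D₁])) (hmem P.a₁ (by simp [D₁]))
    (hmem P.a₂ (by simp [D₁])) (hmem (P.ax (-1)) (by simp [D₁])) (hmem P.d₁ (by simp [D₁]))
    (w₁ := 7 / 12) (w₂ := B) (w₃ := B) (w₄ := 5 / 12 - k / 12 - 2 * B) (w₅ := k / 12)
    (by norm_num) hB0 hB0 hG0 (by positivity) (by ring)
  have e : (7 / 12 : ℝ) • P.b₁ + B • P.a₁ + B • P.a₂ + (5 / 12 - k / 12 - 2 * B) • P.ax (-1) +
      (k / 12) • P.d₁ = P.p := by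
    unfold a₁ a₂ b₁ ax d₁ p
    rw [pt_comb5]
    congr 1
    · push_cast
      rw [hnum] at hB'
      linear_combination 1 * hB' - ((P.τ - 865 * P.l) / 12) * hk
    · ring
    · linear_combination (-7 / 12) * hk
    · linear_combination 4 * hk
  rw [← e]
  exact h

lemma p_mem_C₂ : P.p ∈ convexHull ℝ P.C₂ := by
  have hK := P.Kge
  have hKp := P.Kpos
  have hl := P.lpos
  have hl1 := P.l1
  have hτ := P.τpos
  obtain ⟨k, hk⟩ : ∃ k : ℝ, k * P.K = 1 := ⟨(P.K : ℝ)⁻¹, inv_mul_cancel₀ hKp.ne'⟩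
  have hk0 : 0 < k := by
    by_contra h
    rw [not_lt] at h
    nlinarith
  have hk1 : k ≤ 1 / 10 := by nlinarith
  have hden : 0 < 2 * P.τ + 56 * P.l := by linarith
  set num : ℝ := P.τ * (1 / 4 - k / 2) - P.l * (185 - 28 * k) / 4 + 42 * P.l with hnum
  set B : ℝ := num / (2 * P.τ + 56 * P.l) with hB
  have hB' : B * (2 * P.τ + 56 * P.l) = num := div_mul_cancel₀ _ hden.ne'
  have hkl : 0 < k * P.l := mul_pos hk0 hl
  have hkl' : k * P.l ≤ P.l / 10 := by nlinarith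
  have hkτ : 0 < k * P.τ := mul_pos hk0 hτ
  have hkτ' : k * P.τ ≤ P.τ / 10 := by nlinarith
  have hnum0 : 0 ≤ num := by
    rw [hnum]
    nlinarith
  have hB0 : 0 ≤ B := div_nonneg hnum0 hden.le
  have hG0 : 0 ≤ 1 / 4 - k / 4 - 2 * B := by
    have : 0 ≤ (1 / 4 - k / 4 - 2 * B) * (2 * P.τ + 56 * P.l) := by
      rw [sub_mul, mul_assoc 2 B, hB', hnum]
      nlinarith
    exact nonneg_of_mul_nonneg_left this hden
  have hmem : ∀ x ∈ P.C₂, x ∈ convexHull ℝ P.C₂ := fun x hx => subset_convexHull ℝ _ hx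
  have h := comb5 (convex_convexHull ℝ P.C₂) (hmem P.a₂ (by simp [C₂])) (hmem P.b₁ (by simp [C₂]))
    (hmem P.b₂ (by simp [C₂])) (hmem (P.ax 2) (by simp [C₂])) (hmem P.c₂ (by simp [C₂]))
    (w₁ := 3 / 4) (w₂ := B) (w₃ := B) (w₄ := 1 / 4 - k / 4 - 2 * B) (w₅ := k / 4)
    (by norm_num) hB0 hB0 hG0 (by positivity) (by ring)
  have e : (3 / 4 : ℝ) • P.a₂ + B • P.b₁ + B • P.b₂ + (1 / 4 - k / 4 - 2 * B) • P.ax 2 +
      (k / 4) • P.c₂ = P.p := by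
    unfold a₂ b₁ b₂ ax c₂ p
    rw [pt_comb5]
    congr 1
    · push_cast
      rw [hnum] at hB'
      linear_combination -1 * hB' + ((P.τ - 185 * P.l) / 4) * hk
    · linear_combination (3 / 4) * hk
    · ring
    · linear_combination 4 * hk
  rw [← e]
  exact h

lemma p_mem_D₂ : P.p ∈ convexHull ℝ P.D₂ := by
  have hK := P.Kge
  have hKp := P.Kpos
  have hl := P.lpos
  have hl1 := P.l1
  have hτ := P.τpos
  obtain ⟨k, hk⟩ : ∃ k : ℝ, k * P.K = 1 := ⟨(P.K : ℝ)⁻¹, inv_mul_cancel₀ hKp.ne'⟩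
  have hk0 : 0 < k := by
    by_contra h
    rw [not_lt] at h
    nlinarith
  have hk1 : k ≤ 1 / 10 := by nlinarith
  have hden : 0 < 2 * P.τ + 56 * P.l := by linarith
  set num : ℝ := P.τ * (1 / 4 - k / 2) - P.l * (185 - 28 * k) / 4 + 42 * P.l with hnum
  set B : ℝ := num / (2 * P.τ + 56 * P.l) with hB
  have hB' : B * (2 * P.τ + 56 * P.l) = num := div_mul_cancel₀ _ hden.ne'
  have hkl : 0 < k * P.l := mul_pos hk0 hl
  have hkl' : k * P.l ≤ P.l / 10 := by nlinarith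
  have hkτ : 0 < k * P.τ := mul_pos hk0 hτ
  have hkτ' : k * P.τ ≤ P.τ / 10 := by nlinarith
  have hnum0 : 0 ≤ num := by
    rw [hnum]
    nlinarith
  have hB0 : 0 ≤ B := div_nonneg hnum0 hden.le
  have hG0 : 0 ≤ 1 / 4 - k / 4 - 2 * B := by
    have : 0 ≤ (1 / 4 - k / 4 - 2 * B) * (2 * P.τ + 56 * P.l) := by
      rw [sub_mul, mul_assoc 2 B, hB', hnum]
      nlinarith
    exact nonneg_of_mul_nonneg_left this hden
  have hmem : ∀ x ∈ P.D₂, x ∈ convexHull ℝ P.D₂ := fun x hx => subset_convexHull ℝ _ hx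
  have h := comb5 (convex_convexHull ℝ P.D₂) (hmem P.b₂ (by simp [D₂])) (hmem P.a₁ (by simp [D₂]))
    (hmem P.a₂ (by simp [D₂])) (hmem (P.ax (-1)) (by simp [D₂])) (hmem P.d₂ (by simp [D₂]))
    (w₁ := 3 / 4) (w₂ := B) (w₃ := B) (w₄ := 1 / 4 - k / 4 - 2 * B) (w₅ := k / 4)
    (by norm_num) hB0 hB0 hG0 (by positivity) (by ring)
  have e : (3 / 4 : ℝ) • P.b₂ + B • P.a₁ + B • P.a₂ + (1 / 4 - k / 4 - 2 * B) • P.ax (-1) +
      (k / 4) • P.d₂ = P.p := by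
    unfold a₁ a₂ b₂ ax d₂ p
    rw [pt_comb5]
    congr 1
    · push_cast
      rw [hnum] at hB'
      linear_combination 1 * hB' - ((P.τ - 185 * P.l) / 4) * hk
    · ring
    · linear_combination (3 / 4) * hk
    · linear_combination 4 * hk
  rw [← e]
  exact h

end Par

end Pool.Agent.V11212.Sh
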