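import Mathlib
import Pool.Agent.V11212.Sh.Adj

/-!
# The point `q` is not in the shadow
-/

set_option autoImplicit false

open Set Topology Metric

namespace Pool.Agent.V11212.Sh

lemma sum_pt (c₀ c₁ c₂ c₃ e z y₁ y₂ h : ℝ) :
    ∑ i, (![c₀, c₁, c₂, c₃] : Fin 4 → ℝ) i * (pt e z y₁ y₂ h) i =
      c₀ * z + c₁ * (e * y₁) + c₂ * (e * y₂) + c₃ * (e * (h + y₁ + y₂)) := by
  simp [pt, Fin.sum_univ_four]

namespace Par

variable (P : Par)

lemma finite_S (J : ℕ) : (P.S J).Finite := by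
  unfold S
  refine Finite.union ?_ (by simp)
  have : {x | ∃ j : ℤ, |j| ≤ J ∧ x = P.ax j} = P.ax '' {j : ℤ | |j| ≤ J} := by
    ext x
    constructor
    · rintro ⟨j, h1, h2⟩
      exact ⟨j, h1, h2.symm⟩
    · rintro ⟨j, h1, h2⟩
      exact ⟨j, h1, h2.symm⟩
  rw [this]
  refine Finite.image _ ?_
  refine (Set.finite_Icc (-(J : ℤ)) J).subset ?_
  intro j hj
  exact abs_le.1 hj

/-- the first functional -/
lemma psi₁ (σ : Set E4) (h : ∀ x ∈ σ, 6 * P.e * (P.τ - 56 * P.l) ≤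
    ∑ i, (![6 * P.e, 5 * P.τ, -P.τ, P.τ] : Fin 4 → ℝ) i * x i) : P.q ∉ convexHull ℝ σ := by
  intro hq
  have h1 := hull_ge _ _ σ h hq
  have h2 := P.l1
  have h3 := P.τpos
  have h4 := P.epos
  rw [q, sum_pt] at h1
  nlinarith

/-- the second functional -/
lemma psi₂ (σ : Set E4) (h : ∀ x ∈ σ, 6 * P.e * (P.τ - 56 * P.l) ≤
    ∑ i, (![6 * P.e, -7 * P.τ, -P.τ, P.τ] : Fin 4 → ℝ) i * x i) : P.q ∉ convexHull ℝ σ := by
  intro hq
  have h1 := hull_ge _ _ σ h hq
  have h2 := P.l1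
  have h3 := P.τpos
  have h4 := P.epos
  rw [q, sum_pt] at h1
  nlinarith

/-- the third functional -/
lemma psi₃ (σ : Set E4) (h : ∀ x ∈ σ, 6 * P.e * (- (56 * P.l)) ≤
    ∑ i, (![-6 * P.e, -P.τ, 5 * P.τ, P.τ] : Fin 4 → ℝ) i * x i) : P.q ∉ convexHull ℝ σ := by
  intro hq
  have h1 := hull_ge _ _ σ h hq
  have h2 := P.l1
  have h3 := P.τpos
  have h4 := P.epos
  rw [q, sum_pt] at h1
  nlinarith

/-- the fourth functional -/
lemma psi₄ (σ : Set E4) (h : ∀ x ∈ σ, 6 * P.e * (- (56 * P.l)) ≤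
    ∑ i, (![-6 * P.e, -P.τ, -7 * P.τ, P.τ] : Fin 4 → ℝ) i * x i) : P.q ∉ convexHull ℝ σ := by
  intro hq
  have h1 := hull_ge _ _ σ h hq
  have h2 := P.l1
  have h3 := P.τpos
  have h4 := P.epos
  rw [q, sum_pt] at h1
  nlinarith

/-- the height functional -/
lemma psi₅ (σ : Set E4) (h : ∀ x ∈ σ, 0 ≤
    ∑ i, (![0, 1, 1, -1] : Fin 4 → ℝ) i * x i) : P.q ∉ convexHull ℝ σ := by
  intro hq
  have h1 := hull_ge _ _ σ h hq
  have h4 := P.epos
  rw [q, sum_pt] at h1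
  nlinarith

theorem q_notMem (J : ℕ) : P.q ∉ shadow P.β (P.S J) := by
  intro hq
  simp only [shadow, mem_setOf_eq, mem_iUnion] at hq
  obtain ⟨σ, ⟨hσ, -, hd⟩, hq⟩ := hq
  have hfin : σ.Finite := (P.finite_S J).subset hσ
  have hdist : ∀ x ∈ σ, ∀ y ∈ σ, dist x y < P.β := fun x hx y hy =>
    (dist_le_diam_of_mem hfin.isBounded hx hy).trans_lt hd
  have hl := P.lpos
  have hl1 := P.l1
  have hlK := P.lK
  have hτ := P.τpos
  have he := P.epos
  have hK := P.Kge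
  have hKτ := P.Kτ_ge
  by_cases h1 : P.c₁ ∈ σ
  · refine P.psi₁ σ ?_ hq
    intro x hx
    have hxc := hdist _ h1 _ hx
    rcases P.mem_S (hσ hx) with ⟨j, rfl⟩ | rfl | rfl | rfl | rfl | rfl | rfl | rfl | rfl
    · have hj : ¬ j ≤ 0 := fun h => P.c₁_ax j h hxc
      have hj1 : (1 : ℝ) ≤ j := by exact_mod_cast (show (1 : ℤ) ≤ j by omega)
      have := mul_le_mul_of_nonneg_right hj1 hτ.le
      rw [ax, sum_pt]
      nlinarith
    · rw [a₁, sum_pt]
      nlinarith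
    · exact absurd hxc P.c₁_a₂
    · rw [b₁, sum_pt]
      nlinarith
    · rw [b₂, sum_pt]
      nlinarith
    · rw [c₁, sum_pt]
      have : 6 * (P.τ - 56 * P.l) ≤ 6 * (P.K * P.τ - P.l * (865 * P.K - 28)) +
          P.τ * (48 * P.K - 42 * P.K) := by nlinarith
      have := mul_le_mul_of_nonneg_left this he.le
      linarith
    · rw [c₂, sum_pt]
      have : 6 * (P.τ - 56 * P.l) ≤ 6 * (P.K * P.τ - P.l * (185 * P.K - 28)) +
          P.τ * (16 * P.K + 18 * P.K) := by nlinarith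
      have := mul_le_mul_of_nonneg_left this he.le
      linarith
    · exact absurd hxc P.c₁_d₁
    · exact absurd hxc P.c₁_d₂
  by_cases h2 : P.c₂ ∈ σ
  · refine P.psi₂ σ ?_ hq
    intro x hx
    have hxc := hdist _ h2 _ hx
    rcases P.mem_S (hσ hx) with ⟨j, rfl⟩ | rfl | rfl | rfl | rfl | rfl | rfl | rfl | rfl
    · have hj : ¬ j ≤ 0 := fun h => P.c₂_ax j h hxc
      have hj1 : (1 : ℝ) ≤ j := by exact_mod_cast (show (1 : ℤ) ≤ j by omega)
      have := mul_le_mul_of_nonneg_right hj1 hτ.le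
      rw [ax, sum_pt]
      nlinarith
    · exact absurd hxc P.c₂_a₁
    · rw [a₂, sum_pt]
      nlinarith
    · rw [b₁, sum_pt]
      nlinarith
    · rw [b₂, sum_pt]
      nlinarith
    · exact absurd hx h1
    · rw [c₂, sum_pt]
      have : 6 * (P.τ - 56 * P.l) ≤ 6 * (P.K * P.τ - P.l * (185 * P.K - 28)) +
          P.τ * (16 * P.K - 18 * P.K) := by nlinarith
      have := mul_le_mul_of_nonneg_left this he.le
      linarith
    · exact absurd hxc P.c₂_d₁
    · exact absurd hxc P.c₂_d₂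
  by_cases h3 : P.d₁ ∈ σ
  · refine P.psi₃ σ ?_ hq
    intro x hx
    have hxc := hdist _ hx _ h3
    rcases P.mem_S (hσ hx) with ⟨j, rfl⟩ | rfl | rfl | rfl | rfl | rfl | rfl | rfl | rfl
    · have hj : ¬ 1 ≤ j := fun h => P.d₁_ax j h hxc
      have hj1 : (j : ℝ) ≤ 0 := by exact_mod_cast (show j ≤ (0 : ℤ) by omega)
      have := mul_le_mul_of_nonneg_right hj1 hτ.le
      rw [ax, sum_pt]
      nlinarith
    · rw [a₁, sum_pt]
      nlinarith
    · rw [a₂, sum_pt]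
      nlinarith
    · rw [b₁, sum_pt]
      nlinarith
    · exact absurd hxc P.d₁_b₂
    · exact absurd hx h1
    · exact absurd hx h2
    · rw [d₁, sum_pt]
      have : 6 * (-(56 * P.l)) ≤ -6 * (P.τ - (P.K * P.τ - P.l * (865 * P.K - 28))) +
          P.τ * (48 * P.K - 42 * P.K) := by nlinarith
      have := mul_le_mul_of_nonneg_left this he.le
      linarith
    · rw [d₂, sum_pt]
      have : 6 * (-(56 * P.l)) ≤ -6 * (P.τ - (P.K * P.τ - P.l * (185 * P.K - 28))) +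
          P.τ * (16 * P.K + 18 * P.K) := by nlinarith
      have := mul_le_mul_of_nonneg_left this he.le
      linarith
  by_cases h4 : P.d₂ ∈ σ
  · refine P.psi₄ σ ?_ hq
    intro x hx
    have hxc := hdist _ hx _ h4
    rcases P.mem_S (hσ hx) with ⟨j, rfl⟩ | rfl | rfl | rfl | rfl | rfl | rfl | rfl | rfl
    · have hj : ¬ 1 ≤ j := fun h => P.d₂_ax j h hxc
      have hj1 : (j : ℝ) ≤ 0 := by exact_mod_cast (show j ≤ (0 : ℤ) by omega)
      have := mul_le_mul_of_nonneg_right hj1 hτ.le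
      rw [ax, sum_pt]
      nlinarith
    · rw [a₁, sum_pt]
      nlinarith
    · rw [a₂, sum_pt]
      nlinarith
    · exact absurd hxc P.d₂_b₁
    · rw [b₂, sum_pt]
      nlinarith
    · exact absurd hx h1
    · exact absurd hx h2
    · exact absurd hx h3
    · rw [d₂, sum_pt]
      have : 6 * (-(56 * P.l)) ≤ -6 * (P.τ - (P.K * P.τ - P.l * (185 * P.K - 28))) +
          P.τ * (16 * P.K - 18 * P.K) := by nlinarith
      have := mul_le_mul_of_nonneg_left this he.le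
      linarith
  refine P.psi₅ σ ?_ hq
  intro x hx
  rcases P.mem_S (hσ hx) with ⟨j, rfl⟩ | rfl | rfl | rfl | rfl | rfl | rfl | rfl | rfl
  · rw [ax, sum_pt]
    simp
  · rw [a₁, sum_pt]
    simp
  · rw [a₂, sum_pt]
    simp
  · rw [b₁, sum_pt]
    simp
  · rw [b₂, sum_pt]
    simp
  · exact absurd hx h1
  · exact absurd hx h2
  · exact absurd hx h3
  · exact absurd hx h4

end Par

end Pool.Agent.V11212.Sh
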