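import Mathlib
import Pool.Agent.V11212.Sh.Obs
import Pool.Agent.V11212.Sh.Miss
import Pool.Agent.V11212.Sh.Hit

/-!
# The shadow is not contractible
-/

set_option autoImplicit false

open Set Topology Metric

namespace Pool.Agent.V11212.Sh

lemma coord_of_comb {m : ℕ} (b : AffineBasis (Fin (m + 1)) ℝ (EuclideanSpace ℝ (Fin m)))
    (w : Fin (m + 1) → ℝ) (hw : ∑ i, w i = 1) (i : Fin (m + 1)) :
    b.coord i (∑ j, w j • b j) = w i := by
  rw [← Finset.univ.affineCombination_eq_linear_combination _ _ hw,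
    b.coord_apply_combination_of_mem (Finset.mem_univ i) hw]

namespace Par

variable (P : Par)

/-- the vertices of the simplex -/
noncomputable def vt : Fin 5 → E4 := ![P.p, P.a₁, P.a₂, P.b₁, P.b₂]

lemma vt_indep : AffineIndependent ℝ P.vt := by
  rw [affineIndependent_iff_of_fintype]
  intro w hw h
  rw [Finset.weightedVSub_eq_linear_combination _ hw] at h
  have he := P.epos
  have hτ := P.τpos
  have hl := P.l1
  have hl0 := P.lpos
  have c0 := congrArg (fun x : E4 => x 0) h
  have c1 := congrArg (fun x : E4 => x 1) h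
  have c2 := congrArg (fun x : E4 => x 2) h
  have c3 := congrArg (fun x : E4 => x 3) h
  simp [vt, Fin.sum_univ_five, p, a₁, a₂, b₁, b₂, pt] at c0 c1 c2 c3 hw
  have h0 : w 0 = 0 := by
    have : P.e * (4 * w 0) = 0 := by linear_combination c3 - c1 - c2
    rcases mul_eq_zero.1 this with h | h
    · exact absurd h he.ne'
    · linarith
  have h12 : w 1 = w 2 := by
    have : P.e * (w 1 - w 2) = 0 := by linear_combination c1
    rcases mul_eq_zero.1 this with h | h
    · exact absurd h he.ne'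
    · linarith
  have h34 : w 3 = w 4 := by
    have : P.e * (w 3 - w 4) = 0 := by linear_combination c2
    rcases mul_eq_zero.1 this with h | h
    · exact absurd h he.ne'
    · linarith
  have h42 : w 4 = - w 2 := by
    rw [h0, h12, h34] at hw
    linarith
  have h2 : w 2 = 0 := by
    rw [h0, h34, h42] at c0
    have : w 2 * (2 * P.τ - 112 * P.l) = 0 := by linear_combination -c0
    rcases mul_eq_zero.1 this with h | h
    · exact h
    · exfalso
      linarith
  intro i
  fin_cases i
  · exact h0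
  · change w 1 = 0
    rw [h12, h2]
  · exact h2
  · change w 3 = 0
    rw [h34, h42, h2, neg_zero]
  · change w 4 = 0
    rw [h42, h2, neg_zero]

/-- the simplex as an affine basis -/
noncomputable def bas : AffineBasis (Fin (4 + 1)) ℝ E4 :=
  ⟨P.vt, P.vt_indep, by
    rw [P.vt_indep.affineSpan_eq_top_iff_card_eq_finrank_add_one]
    simp⟩

lemma q_eq : P.q = ∑ j, (![1 / 2, 1 / 8, 1 / 8, 1 / 8, 1 / 8] : Fin 5 → ℝ) j • P.bas j := by
  change P.q = ∑ j, (![1 / 2, 1 / 8, 1 / 8, 1 / 8, 1 / 8] : Fin 5 → ℝ) j • P.vt j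
  simp only [vt, Fin.sum_univ_five, q, p, a₁, a₂, b₁, b₂]
  ext i
  fin_cases i <;> simp [pt] <;> ring

lemma coord_q (i : Fin 5) : 0 < P.bas.coord i P.q := by
  have h1 : ∑ j, (![1 / 2, 1 / 8, 1 / 8, 1 / 8, 1 / 8] : Fin 5 → ℝ) j = 1 := by
    rw [Fin.sum_univ_five]
    simp
    norm_num
  rw [q_eq, coord_of_comb P.bas _ h1]
  fin_cases i <;> simp

lemma facets {J : ℕ} (hJ : 2 ≤ J) (i : Fin 5) :
    convexHull ℝ (P.bas '' {j | j ≠ i}) ⊆ shadow P.β (P.S J) := by
  have key : ∀ C : Set E4, (∀ j, j ≠ i → P.vt j ∈ convexHull ℝ C) →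
      convexHull ℝ C ⊆ shadow P.β (P.S J) →
      convexHull ℝ (P.bas '' {j | j ≠ i}) ⊆ shadow P.β (P.S J) := by
    intro C h1 h2
    refine Subset.trans (convexHull_min ?_ (convex_convexHull ℝ C)) h2
    rintro x ⟨j, hj, rfl⟩
    exact h1 j hj
  have hs : ∀ {C : Set E4} {x : E4}, x ∈ C → x ∈ convexHull ℝ C :=
    fun {C x} hx => subset_convexHull ℝ _ hx
  fin_cases i
  · refine key P.B₀ ?_ P.B₀_sub
    intro j hj
    fin_cases j
    · exact absurd rfl hj
    · exact hs (by simp [B₀, vt])
    · exact hs (by simp [B₀, vt])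
    · exact hs (by simp [B₀, vt])
    · exact hs (by simp [B₀, vt])
  · refine key P.C₂ ?_ (P.C₂_sub hJ)
    intro j hj
    fin_cases j
    · exact P.p_mem_C₂
    · exact absurd rfl hj
    · exact hs (by simp [C₂, vt])
    · exact hs (by simp [C₂, vt])
    · exact hs (by simp [C₂, vt])
  · refine key P.C₁ ?_ (P.C₁_sub hJ)
    intro j hj
    fin_cases j
    · exact P.p_mem_C₁
    · exact hs (by simp [C₁, vt])
    · exact absurd rfl hj
    · exact hs (by simp [C₁, vt])
    · exact hs (by simp [C₁, vt])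
  · refine key P.D₂ ?_ (P.D₂_sub hJ)
    intro j hj
    fin_cases j
    · exact P.p_mem_D₂
    · exact hs (by simp [D₂, vt])
    · exact hs (by simp [D₂, vt])
    · exact absurd rfl hj
    · exact hs (by simp [D₂, vt])
  · refine key P.D₁ ?_ (P.D₁_sub hJ)
    intro j hj
    fin_cases j
    · exact P.p_mem_D₁
    · exact hs (by simp [D₁, vt])
    · exact hs (by simp [D₁, vt])
    · exact hs (by simp [D₁, vt])
    · exact absurd rfl hj

theorem not_contractible_shadow {J : ℕ} (hJ : 2 ≤ J) :
    ¬ ContractibleSpace (shadow P.β (P.S J)) :=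
  not_contractible P.bas P.q P.coord_q _ (P.facets hJ) (P.q_notMem J)

end Par

end Pool.Agent.V11212.Sh
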