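import Mathlib
import Pool.Agent.V11212.Sh.Core
import Pool.Agent.Helper206.BoxS.SphereSC

/-!
# The shadow is not homotopy equivalent to a circle either
-/

set_option autoImplicit false

open Set Topology Metric Module

namespace Pool.Agent.V11212.Sh

/-- the unit sphere in the punctured space -/
def inclS (m : ℕ) : C(sphere (0 : EuclideanSpace ℝ (Fin m)) 1, Pu m) where
  toFun x := ⟨x.1, ne_zero_of_mem_unit_sphere x⟩
  continuous_toFun := Continuous.subtype_mk continuous_subtype_val _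

/-- normalisation -/
noncomputable def nrmS (m : ℕ) : C(Pu m, sphere (0 : EuclideanSpace ℝ (Fin m)) 1) where
  toFun x := ⟨‖x.1‖⁻¹ • x.1, by
    rw [mem_sphere_zero_iff_norm, norm_smul, norm_inv, norm_norm,
      inv_mul_cancel₀ (norm_ne_zero_iff.2 x.2)]⟩
  continuous_toFun := by
    refine Continuous.subtype_mk ?_ _
    exact (continuous_subtype_val.norm.inv₀ fun x => norm_ne_zero_iff.2 x.2).smul
      continuous_subtype_val

theorem rad_sphere_not_nullhomotopic {m : ℕ}
    (b : AffineBasis (Fin (m + 1)) ℝ (EuclideanSpace ℝ (Fin m)))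
    (q : EuclideanSpace ℝ (Fin m)) (hq : ∀ i, 0 < b.coord i q)
    (X : Set (EuclideanSpace ℝ (Fin m)))
    (hX : ∀ i, convexHull ℝ (b '' {j | j ≠ i}) ⊆ X) (hqX : q ∉ X) :
    ¬ ((rad b q hq X hX).comp (inclS m)).Nullhomotopic := by
  rintro ⟨x0, hx0⟩
  let back : C(X, Pu m) := ⟨fun x => ⟨x.1 - q, fun h => hqX (by
    rw [sub_eq_zero] at h
    rw [← h]; exact x.2)⟩, by
      refine Continuous.subtype_mk ?_ _
      fun_prop⟩
  have h1 : ContinuousMap.Homotopic ((back.comp ((rad b q hq X hX).comp (inclS m))).comp (nrmS m))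
      ((back.comp (ContinuousMap.const _ x0)).comp (nrmS m)) :=
    ContinuousMap.Homotopic.comp (ContinuousMap.Homotopic.comp
      (ContinuousMap.Homotopic.refl back) hx0) (ContinuousMap.Homotopic.refl (nrmS m))
  have h2 : (back.comp (ContinuousMap.const (sphere (0 : EuclideanSpace ℝ (Fin m)) 1) x0)).comp
      (nrmS m) = ContinuousMap.const (Pu m) (back x0) := by
    ext1 v
    rfl
  rw [h2] at h1
  refine not_homotopic_const _ _ ?_ h1
  intro g c hc h
  have hg : 0 < ‖g.1‖ := norm_pos_iff.2 g.2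
  have hg' : ‖g.1‖⁻¹ • g.1 ≠ 0 := smul_ne_zero (inv_ne_zero hg.ne') g.2
  have h3 : (q + (gg b q (‖g.1‖⁻¹ • g.1))⁻¹ • (‖g.1‖⁻¹ • g.1)) - q = -(c • g.1) := h
  rw [add_sub_cancel_left, ← neg_smul, smul_smul] at h3
  have h4 : ((gg b q (‖g.1‖⁻¹ • g.1))⁻¹ * ‖g.1‖⁻¹ - -c) • g.1 = 0 := by
    rw [sub_smul, h3, sub_self]
  rcases smul_eq_zero.1 h4 with h5 | h5
  · have := mul_pos (inv_pos.2 (gg_pos b q hq hg')) (inv_pos.2 hg)
    linarith
  · exact g.2 h5

/-- maps from the 3-sphere to the circle are null-homotopic -/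
theorem sphere_circle (f : C(sphere (0 : EuclideanSpace ℝ (Fin 4)) 1, Circle)) :
    f.Nullhomotopic := by
  have : Fact (finrank ℝ (EuclideanSpace ℝ (Fin 4)) = 3 + 1) := ⟨by simp⟩
  have h1 : LocallyPathConnectedSpace (sphere (0 : EuclideanSpace ℝ (Fin 4)) 1) :=
    ChartedSpace.locallyPathConnectedSpace (EuclideanSpace ℝ (Fin 3)) _
  have h2 : SimplyConnectedSpace (sphere (0 : EuclideanSpace ℝ (Fin 4)) 1) :=
    Pool.Agent.Helper206.BoxS.Sph.simplyConnected_sphere (by simp)
  obtain ⟨a₀⟩ : Nonempty (sphere (0 : EuclideanSpace ℝ (Fin 4)) 1) := inferInstance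
  obtain ⟨e₀, he⟩ := Circle.exp_surjective (f a₀)
  obtain ⟨F, ⟨-, hF⟩, -⟩ := Circle.isCoveringMap_exp.existsUnique_continuousMap_lifts f a₀ e₀ he
  have h3 : f = Circle.exp.comp F := by
    ext1 x
    exact (congrFun hF x).symm
  have h4 : F.Nullhomotopic := by
    obtain ⟨y, hy⟩ := id_nullhomotopic ℝ
    refine ⟨y, ?_⟩
    have := ContinuousMap.Homotopic.comp hy (ContinuousMap.Homotopic.refl F)
    rw [ContinuousMap.id_comp] at this
    exact this
  rw [h3]
  obtain ⟨y, hy⟩ := h4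
  exact ⟨Circle.exp y, ContinuousMap.Homotopic.comp (ContinuousMap.Homotopic.refl Circle.exp) hy⟩

lemma nullhomotopic_postcomp {X Y Z : Type*} [TopologicalSpace X] [TopologicalSpace Y]
    [TopologicalSpace Z] {f : C(X, Y)} (hf : f.Nullhomotopic) (g : C(Y, Z)) :
    (g.comp f).Nullhomotopic := by
  obtain ⟨y, hy⟩ := hf
  exact ⟨g y, ContinuousMap.Homotopic.comp (ContinuousMap.Homotopic.refl g) hy⟩

lemma nullhomotopic_of_homotopic {X Y : Type*} [TopologicalSpace X] [TopologicalSpace Y]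
    {f g : C(X, Y)} (hf : f.Nullhomotopic) (h : g.Homotopic f) : g.Nullhomotopic := by
  obtain ⟨y, hy⟩ := hf
  exact ⟨y, h.trans hy⟩

/-- A set which contains the facets of a simplex but misses an interior point of it is not
homotopy equivalent to a space in which all maps from the 3-sphere are null-homotopic. -/
theorem not_equiv {b : AffineBasis (Fin (4 + 1)) ℝ (EuclideanSpace ℝ (Fin 4))}
    {q : EuclideanSpace ℝ (Fin 4)} (hq : ∀ i, 0 < b.coord i q)
    {X : Set (EuclideanSpace ℝ (Fin 4))}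
    (hX : ∀ i, convexHull ℝ (b '' {j | j ≠ i}) ⊆ X) (hqX : q ∉ X)
    {Y : Type*} [TopologicalSpace Y]
    (hY : ∀ f : C(sphere (0 : EuclideanSpace ℝ (Fin 4)) 1, Y), f.Nullhomotopic) :
    ¬ Nonempty (ContinuousMap.HomotopyEquiv X Y) := by
  rintro ⟨e⟩
  refine rad_sphere_not_nullhomotopic b q hq X hX hqX ?_
  set ι := (rad b q hq X hX).comp (inclS 4)
  have h1 := nullhomotopic_postcomp (hY (e.toFun.comp ι)) e.invFun
  refine nullhomotopic_of_homotopic h1 ?_
  have h2 := ContinuousMap.Homotopic.comp e.left_inv.symm (ContinuousMap.Homotopic.refl ι)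
  rw [ContinuousMap.id_comp, ContinuousMap.comp_assoc] at h2
  exact h2

end Pool.Agent.V11212.Sh
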