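import Mathlib
import Pool.Agent.V11212.Sh.Circ

/-!
# Bad samples of sets containing a straight segment
-/

set_option autoImplicit false

open Set Topology Metric

namespace Pool.Agent.V11212.Sh

/-- the segment -/
def sg : Set E4 := {x | |x 0| ≤ 1 ∧ x 1 = 0 ∧ x 2 = 0 ∧ x 3 = 0}

/-- the sample points are close to the segment -/
lemma near (P : Par) {η : ℝ} (hτ : P.τ ≤ η / 4) (he : P.e * (200 * P.K) ≤ η)
    (z y₁ y₂ h : ℝ) (hz : |z| ≤ 1 + P.τ)
    (hy : y₁ ^ 2 + y₂ ^ 2 + (h + y₁ + y₂) ^ 2 ≤ 2000 * P.K ^ 2) :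
    ∃ m ∈ sg, dist (pt P.e z y₁ y₂ h) m ≤ η / 2 := by
  refine ⟨pt P.e (max (-1) (min 1 z)) 0 0 0, ?_, ?_⟩
  · refine ⟨?_, by simp [pt], by simp [pt], by simp [pt]⟩
    rw [abs_le]
    simp [pt]
  · have hτ0 := P.τpos
    have hη : 0 < η := by linarith
    rw [← abs_of_nonneg (dist_nonneg (x := pt P.e z y₁ y₂ h)),
      ← abs_of_nonneg (by linarith : 0 ≤ η / 2), ← sq_le_sq, dist_pt]
    have h1 : (z - max (-1) (min 1 z)) ^ 2 ≤ P.τ ^ 2 := by
      rw [abs_le] at hz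
      rcases le_total z 1 with h | h
      · rw [min_eq_right h]
        rcases le_total (-1) z with h' | h'
        · rw [max_eq_right h', sub_self]
          nlinarith [sq_nonneg P.τ]
        · rw [max_eq_left h']
          nlinarith
      · rw [min_eq_left h, max_eq_right (by norm_num)]
        nlinarith
    have h2 : P.e ^ 2 * ((y₁ - 0) ^ 2 + (y₂ - 0) ^ 2 + (h - 0 + (y₁ - 0) + (y₂ - 0)) ^ 2) ≤
        P.e ^ 2 * (2000 * P.K ^ 2) := by
      refine mul_le_mul_of_nonneg_left ?_ (sq_nonneg _)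
      simpa using hy
    have h3 : (P.e * (200 * P.K)) ^ 2 ≤ η ^ 2 := by
      have : 0 ≤ P.e * (200 * P.K) := mul_nonneg P.epos.le (by have := P.Kpos; linarith)
      exact pow_le_pow_left₀ this he 2
    have h4 : P.τ ^ 2 ≤ (η / 4) ^ 2 := pow_le_pow_left₀ hτ0.le hτ 2
    nlinarith

lemma near_special (P : Par) {η : ℝ} (hτ : P.τ ≤ η / 4) (he : P.e * (200 * P.K) ≤ η)
    (hβ : P.β < 1) {x : E4} (hx : x = P.a₁ ∨ x = P.a₂ ∨ x = P.b₁ ∨ x = P.b₂ ∨ x = P.c₁ ∨
      x = P.c₂ ∨ x = P.d₁ ∨ x = P.d₂) : ∃ m ∈ sg, dist x m ≤ η / 2 := by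
  have hl := P.lpos
  have hl1 := P.l1
  have hlK := P.lK
  have hKge := P.Kge
  have hτ0 := P.τpos
  have hKl := P.Kl_nonneg
  have hKτ := P.Kτ_ge
  have hβP : (P.K : ℝ) * P.τ < 1 := hβ
  rcases hx with rfl | rfl | rfl | rfl | rfl | rfl | rfl | rfl
  · exact near P hτ he _ _ _ _ (by rw [abs_le]; constructor <;> nlinarith) (by nlinarith)
  · exact near P hτ he _ _ _ _ (by rw [abs_le]; constructor <;> nlinarith) (by nlinarith)
  · exact near P hτ he _ _ _ _ (by rw [abs_le]; constructor <;> nlinarith) (by nlinarith)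
  · exact near P hτ he _ _ _ _ (by rw [abs_le]; constructor <;> nlinarith) (by nlinarith)
  · exact near P hτ he _ _ _ _ (by rw [abs_le]; constructor <;> nlinarith) (by nlinarith)
  · exact near P hτ he _ _ _ _ (by rw [abs_le]; constructor <;> nlinarith) (by nlinarith)
  · exact near P hτ he _ _ _ _ (by rw [abs_le]; constructor <;> nlinarith) (by nlinarith)
  · exact near P hτ he _ _ _ _ (by rw [abs_le]; constructor <;> nlinarith) (by nlinarith)

lemma exists_J (P : Par) {η : ℝ} (hτη : P.τ ≤ η / 4) (heη : P.e * (200 * P.K) ≤ η)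
    (hβ : P.β < 1) : ∃ J : ℕ, 2 ≤ J ∧ (∀ x ∈ P.S J, ∃ m ∈ sg, dist x m ≤ η / 2) ∧
      (∀ m ∈ sg, ∃ x ∈ P.S J, dist m x ≤ η / 2) := by
  have hτ0 := P.τpos
  have hKτ := P.Kτ_ge
  have hβP : (P.K : ℝ) * P.τ < 1 := hβ
  have hτ1 : P.τ ≤ 1 / 10 := by linarith
  have hη : 0 < η := by linarith
  have hη2 : 0 ≤ η / 2 := by linarith
  refine ⟨⌈1 / P.τ⌉₊, ?_, ?_⟩
  · have h1 : 1 / P.τ ≤ (⌈1 / P.τ⌉₊ : ℕ) := Nat.le_ceil _
    have h2 : (10 : ℝ) ≤ 1 / P.τ := by
      rw [le_div_iff₀ hτ0]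
      linarith
    have h3 : (2 : ℝ) ≤ (⌈1 / P.τ⌉₊ : ℕ) := by linarith
    exact_mod_cast h3
  set J : ℕ := ⌈1 / P.τ⌉₊ with hJ
  have hJ1 : 1 / P.τ ≤ J := Nat.le_ceil _
  have hJ2 : (J : ℝ) < 1 / P.τ + 1 := Nat.ceil_lt_add_one (by positivity)
  have hJτ : (J : ℝ) * P.τ ≤ 1 + P.τ := by
    have h1 : (J : ℝ) * P.τ ≤ (1 / P.τ + 1) * P.τ := mul_le_mul_of_nonneg_right hJ2.le hτ0.le
    have h2 : (1 / P.τ + 1) * P.τ = 1 + P.τ := by field_simp
    rw [h2] at h1
    exact h1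
  have hJ3 : 1 ≤ J * P.τ := by
    rw [div_le_iff₀ hτ0] at hJ1
    exact hJ1
  refine ⟨?_, ?_⟩
  · intro x hx
    rcases hx with ⟨j, hj, rfl⟩ | hx
    · refine near P hτη heη _ _ _ _ ?_ ?_
      · rw [abs_mul, abs_of_pos hτ0]
        have : |(j : ℝ)| ≤ J := by
          rw [← Int.cast_abs]
          exact_mod_cast hj
        exact (mul_le_mul_of_nonneg_right this hτ0.le).trans hJτ
      · simp
    · exact near_special P hτη heη hβ hx
  · rintro m ⟨h0, h1, h2, h3⟩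
    refine ⟨P.ax ⌊m 0 / P.τ⌋, ?_, ?_⟩
    · refine Or.inl ⟨_, ?_, rfl⟩
      rw [abs_le] at h0 ⊢
      constructor
      · rw [Int.le_floor]
        push_cast
        rw [le_div_iff₀ hτ0]
        linarith
      · have : ((⌊m 0 / P.τ⌋ : ℤ) : ℝ) ≤ J := by
          refine (Int.floor_le _).trans ?_
          rw [div_le_iff₀ hτ0]
          linarith
        exact_mod_cast this
    · have hm : m = pt P.e (m 0) 0 0 0 := by
        ext i
        fin_cases i
        · simp [pt]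
        · simp [pt, h1]
        · simp [pt, h2]
        · simp [pt, h3]
      have hf1 := Int.floor_le (m 0 / P.τ)
      have hf2 := Int.lt_floor_add_one (m 0 / P.τ)
      rw [le_div_iff₀ hτ0] at hf1
      rw [div_lt_iff₀ hτ0] at hf2
      have hd : dist m (P.ax ⌊m 0 / P.τ⌋) ^ 2 ≤ (η / 2) ^ 2 := by
        rw [hm, Par.ax, dist_pt]
        have e0 : (pt P.e (m 0) 0 0 0 : E4) 0 = m 0 := by simp [pt]
        rw [e0]
        nlinarith
      exact (pow_le_pow_iff_left₀ dist_nonneg hη2 two_ne_zero).1 hd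

lemma exists_par {β η : ℝ} (hβ0 : 0 < β) (hη : 0 < η) :
    ∃ P : Par, P.β = β ∧ P.τ ≤ η / 4 ∧ P.e * (200 * P.K) ≤ η := by
  obtain ⟨K, hK⟩ := exists_nat_gt (max 10 (4 * β / η))
  have hK10 : (10 : ℝ) < K := lt_of_le_of_lt (le_max_left _ _) hK
  have hKη : 4 * β / η < K := lt_of_le_of_lt (le_max_right _ _) hK
  have hK10' : 10 ≤ K := by
    have : (10 : ℕ) < K := by exact_mod_cast hK10
    omega
  have hKpos : (0 : ℝ) < K := by linarith
  have hτpos : 0 < β / K := div_pos hβ0 hKpos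
  have hepos : 0 < min (η / (200 * K)) (β / K / (1000 * K)) := by
    apply lt_min
    · positivity
    · positivity
  refine ⟨{ τ := β / K
            K := K
            e := min (η / (200 * K)) (β / K / (1000 * K))
            τpos := hτpos
            epos := hepos
            hK := hK10'
            small := ?_ }, ?_, ?_, ?_⟩
  · have h1 : (min (η / (200 * K)) (β / K / (1000 * K))) ^ 2 ≤ (β / K / (1000 * K)) ^ 2 :=
      pow_le_pow_left₀ hepos.le (min_le_right _ _) 2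
    have h2 : 100000 * (K : ℝ) * (β / K / (1000 * K)) ^ 2 = (β / K) ^ 2 / (10 * K) := by
      field_simp
      norm_num
    have h3 : (β / K) ^ 2 / (10 * K) ≤ (β / K) ^ 2 := by
      apply div_le_self (sq_nonneg _)
      linarith
    calc 100000 * (K : ℝ) * (min (η / (200 * K)) (β / K / (1000 * K))) ^ 2
        ≤ 100000 * (K : ℝ) * (β / K / (1000 * K)) ^ 2 :=
          mul_le_mul_of_nonneg_left h1 (by positivity)
      _ ≤ (β / K) ^ 2 := by rw [h2]; exact h3
  · change (K : ℝ) * (β / K) = β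
    field_simp
  · change β / K ≤ η / 4
    rw [div_le_iff₀ hKpos]
    rw [div_lt_iff₀ hη] at hKη
    linarith
  · change min (η / (200 * K)) (β / K / (1000 * K)) * (200 * K) ≤ η
    have h2 : min (η / (200 * K)) (β / K / (1000 * K)) * (200 * K) ≤
        η / (200 * K) * (200 * K) :=
      mul_le_mul_of_nonneg_right (min_le_left _ _) (by positivity)
    have h3 : η / (200 * K) * (200 * (K : ℝ)) = η := by field_simp
    rw [h3] at h2
    exact h2

lemma norm_q (P : Par) (hβ : P.β < 1) : ‖P.q‖ ≤ 1 / 10 := by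
  have hτ0 := P.τpos
  have hKτ := P.Kτ_ge
  have hβP : (P.K : ℝ) * P.τ < 1 := hβ
  have h0 := P.small
  have hK := P.Kge
  have h1 : P.e ^ 2 ≤ P.τ ^ 2 := by nlinarith [sq_nonneg P.e]
  have h2 : ‖P.q‖ ^ 2 = (P.τ / 2) ^ 2 + P.e ^ 2 * 4 := by
    rw [EuclideanSpace.norm_eq, Real.sq_sqrt (Finset.sum_nonneg fun i _ => sq_nonneg _)]
    simp [Par.q, pt, Fin.sum_univ_four]
    ring
  have h3 : P.e ^ 2 * 4 ≤ P.τ ^ 2 / 100 := by nlinarith [sq_nonneg P.e]
  have h4 : ‖P.q‖ ^ 2 ≤ (1 / 10) ^ 2 := by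
    rw [h2]
    nlinarith
  exact (pow_le_pow_iff_left₀ (norm_nonneg _) (by norm_num) two_ne_zero).1 h4

lemma shadow_mono {N : ℕ} {β : ℝ} {S T : Set (EuclideanSpace ℝ (Fin N))} (h : S ⊆ T) :
    shadow β S ⊆ shadow β T := by
  intro x hx
  simp only [shadow, mem_iUnion] at hx ⊢
  obtain ⟨σ, ⟨h1, h2, h3⟩, h4⟩ := hx
  exact ⟨σ, ⟨h1.trans h, h2, h3⟩, h4⟩

/-- additional far away sample points do not matter -/
lemma q_notMem_union (P : Par) (J : ℕ) (hβ : P.β < 1 / 4) (F : Set E4) (hF : F.Finite)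
    (hFn : ∀ x ∈ F, 1 / 2 ≤ ‖x‖) : P.q ∉ shadow P.β (P.S J ∪ F) := by
  intro hq
  simp only [shadow, mem_iUnion] at hq
  obtain ⟨σ, ⟨hσ, hne, hd⟩, hq⟩ := hq
  refine P.q_notMem J ?_
  simp only [shadow, mem_iUnion]
  refine ⟨σ, ⟨?_, hne, hd⟩, hq⟩
  intro x hx
  rcases hσ hx with h | h
  · exact h
  · exfalso
    have hfin : σ.Finite := ((P.finite_S J).union hF).subset hσ
    have h1 : σ ⊆ closedBall x (diam σ) := by
      intro y hy
      rw [mem_closedBall]
      exact dist_le_diam_of_mem hfin.isBounded hy hx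
    have h2 : P.q ∈ closedBall x (diam σ) := convexHull_min h1 (convex_closedBall _ _) hq
    rw [mem_closedBall, dist_eq_norm] at h2
    have h3 := hFn x h
    have h4 := norm_q P (by linarith)
    have h5 : ‖x‖ ≤ ‖P.q - x‖ + ‖P.q‖ := by
      calc ‖x‖ = ‖P.q - (P.q - x)‖ := by rw [sub_sub_cancel]
        _ ≤ ‖P.q‖ + ‖P.q - x‖ := norm_sub_le _ _
        _ = _ := add_comm _ _
    linarith

/-- Bad samples for every compact set which near the origin is a straight segment, and into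
which all maps from the 3-sphere are null-homotopic. -/
theorem bad_samples (M : Set E4) (hM : IsCompact M) (hsg : sg ⊆ M)
    (hloc : ∀ x ∈ M, ‖x‖ < 1 / 2 → x ∈ sg)
    (hnull : ∀ f : C(sphere (0 : E4) 1, M), f.Nullhomotopic) {β : ℝ} (hβ0 : 0 < β)
    (hβ1 : β < 1 / 4) {η : ℝ} (hη : 0 < η) : ∃ S : Finset E4, S.Nonempty ∧
      hausdorffDist (S : Set E4) M < η ∧
      ¬ Nonempty (ContinuousMap.HomotopyEquiv (shadow β (S : Set E4)) M) := by
  classical
  obtain ⟨P, hPβ, hτ, he⟩ := exists_par hβ0 hη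
  obtain ⟨J, hJ, hd1, hd2⟩ := exists_J P hτ he (by rw [hPβ]; linarith)
  have hcomp : IsCompact (M \ ball 0 (1 / 2)) := hM.diff isOpen_ball
  obtain ⟨F, hFs, hFf, hFc⟩ := finite_approx_of_totallyBounded hcomp.totallyBounded (η / 2)
    (by linarith)
  have hFn : ∀ x ∈ F, 1 / 2 ≤ ‖x‖ := by
    intro x hx
    have := (hFs hx).2
    rw [mem_ball_zero_iff, not_lt] at this
    exact this
  have hfin : (P.S J ∪ F).Finite := (P.finite_S J).union hFf
  refine ⟨hfin.toFinset, ?_, ?_, ?_⟩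
  · rw [Set.Finite.toFinset_nonempty]
    exact ⟨P.a₁, Or.inl (Or.inr (by simp))⟩
  · rw [Set.Finite.coe_toFinset]
    refine lt_of_le_of_lt (hausdorffDist_le_of_mem_dist (r := η / 2) (by linarith) ?_ ?_)
      (by linarith)
    · rintro x (hx | hx)
      · obtain ⟨m, hm, hmd⟩ := hd1 x hx
        exact ⟨m, hsg hm, hmd⟩
      · exact ⟨x, (hFs hx).1, by rw [dist_self]; linarith⟩
    · intro m hm
      by_cases hmn : ‖m‖ < 1 / 2
      · obtain ⟨x, hx, hxd⟩ := hd2 m (hloc m hm hmn)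
        exact ⟨x, Or.inl hx, hxd⟩
      · have h1 : m ∈ ⋃ y ∈ F, ball y (η / 2) := hFc ⟨hm, by
          rw [mem_ball_zero_iff]; exact hmn⟩
        simp only [mem_iUnion] at h1
        obtain ⟨y, hy, hyd⟩ := h1
        exact ⟨y, Or.inr hy, (mem_ball.1 hyd).le⟩
  · rw [Set.Finite.coe_toFinset, ← hPβ]
    exact not_equiv P.coord_q (fun i => (P.facets hJ i).trans (shadow_mono subset_union_left))
      (q_notMem_union P J (by rw [hPβ]; exact hβ1) F hFf hFn) hnull

end Pool.Agent.V11212.Sh
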